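import Pool.Agent.Q227.AK.A4
import Pool.Agent.Q227.CD.Ms

/-!
# Descent from two cyclic extensions of different prime degrees
-/

set_option autoImplicit false

namespace Pool.Agent.Q227.AK

open Pool.Agent.Q227.AR (nm nm_add nm_zero nm_apply_self nm_apply_pow nm_apply_inv nm_comp nm_comm nm_indicator nm_sub nm_cast le_nm Fam gp mem_gp tv mass mass_add mass_mono dl dl_self mass_dl dl_perm nm_dl mass_nm mass_pos sub_dl pair ob mem_ob ob_eq mass_split)

open NumberField IsDedekindDomain Finset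
open Pool.Agent.W401.Cheb

open scoped ENNReal

variable {𝕜 : Type} [Field 𝕜] [IsAlgClosed 𝕜]

/-- multisets with the same powers for two prime numbers -/
theorem local_two [CharZero 𝕜] {p q : ℕ} (hp : p.Prime) (hq : q.Prime) (hpq : p ≠ q) {A B : Multiset 𝕜}
    (hB0 : (0 : 𝕜) ∉ B) (hB : ∀ x ∈ B, ∀ y ∈ B, ¬ IsPrimitiveRoot (x / y) (p * q))
    (h1 : pw p A = pw p B) (h2 : pw q A = pw q B) : A = B := by
  refine Pool.Agent.Q227.CD.multiset_eq' 1 A B (p * q) (Nat.mul_pos hp.pos hq.pos) hB0 ?_ ?_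
  · intro x hx y hy hxy
    have hy0 : y ≠ 0 := fun h => hB0 (h ▸ hy)
    have h3 : (x / y) ^ (p * q) = 1 := by
      rw [div_pow, hxy, div_self (pow_ne_zero _ hy0)]
    have h4 : orderOf (x / y) ∣ p * q := orderOf_dvd_of_pow_eq_one h3
    have h5 : orderOf (x / y) ∣ p ∨ orderOf (x / y) ∣ q := by
      obtain ⟨a, b, ha, hb, hab⟩ := dvd_mul.1 h4
      rcases (Nat.dvd_prime hp).1 ha with rfl | rfl
      · right
        rw [hab, one_mul]
        exact hb
      · rcases (Nat.dvd_prime hq).1 hb with rfl | rfl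
        · left
          rw [hab, mul_one]
        · exfalso
          apply hB x hx y hy
          rw [← hab]
          exact IsPrimitiveRoot.orderOf _
    rcases h5 with h5 | h5
    · refine ⟨p, 1, hp, ?_⟩
      have h6 := orderOf_dvd_iff_pow_eq_one.1 h5
      rw [div_pow] at h6
      rw [pow_one]
      exact (div_eq_one_iff_eq (pow_ne_zero _ hy0)).1 h6
    · refine ⟨q, 1, hq, ?_⟩
      have h6 := orderOf_dvd_iff_pow_eq_one.1 h5
      rw [div_pow] at h6
      rw [pow_one]
      exact (div_eq_one_iff_eq (pow_ne_zero _ hy0)).1 h6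
  · intro r hr _
    by_cases hrp : r = p
    · refine ⟨q, hq.pos, Dvd.intro_left p rfl, ?_, h2⟩
      rw [hrp]
      intro h
      exact hpq ((Nat.prime_dvd_prime_iff_eq hp hq).1 h)
    · exact ⟨p, hp.pos, Dvd.intro q rfl, fun h => hrp ((Nat.prime_dvd_prime_iff_eq hr hp).1 h), h1⟩

/-- roots of unity which are quotients of two roots of a polynomial over a number field -/
theorem root_ratio [CharZero 𝕜] (L : IntermediateField ℚ 𝕜) [FiniteDimensional ℚ L] {n : ℕ} {B : Multiset 𝕜}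
    (hn : Multiset.card B = n)
    (hB : ∀ k, ((B.map fun a => Polynomial.X - Polynomial.C a).prod).coeff k ∈ L) {m : ℕ}
    (hm : 0 < m) (hlt : Module.finrank ℚ L * n ^ 2 < m.totient) {x y : 𝕜} (hx : x ∈ B)
    (hy : y ∈ B) : ¬ IsPrimitiveRoot (x / y) m := by
  intro hprim
  set f := (B.map fun a => Polynomial.X - Polynomial.C a).prod with hf
  have hfm : f.Monic := Polynomial.monic_multisetProd_X_sub_C B
  have hfd : f.natDegree = n := by
    rw [hf, Polynomial.natDegree_multiset_prod_X_sub_C_eq_card, hn]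
  have hfl : f ∈ Polynomial.lifts (algebraMap L 𝕜) := by
    rw [Polynomial.lifts_iff_coeff_lifts]
    intro k
    exact ⟨⟨_, hB k⟩, rfl⟩
  obtain ⟨g, hgf, hgd, hgm⟩ := Polynomial.lifts_and_natDegree_eq_and_monic hfl hfm
  have hroot : ∀ z ∈ B, IsIntegral L z ∧ Module.finrank L (IntermediateField.adjoin L {z}) ≤ n := by
    intro z hz
    have h1 : Polynomial.aeval z g = 0 := by
      rw [Polynomial.aeval_def, ← Polynomial.eval_map, hgf, hf, Polynomial.eval_multiset_prod]
      apply Multiset.prod_eq_zero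
      rw [Multiset.mem_map]
      refine ⟨Polynomial.X - Polynomial.C z, Multiset.mem_map_of_mem _ hz, ?_⟩
      simp
    have h2 : IsIntegral L z := ⟨g, hgm, by rw [← Polynomial.aeval_def]; exact h1⟩
    refine ⟨h2, ?_⟩
    rw [IntermediateField.adjoin.finrank h2, ← hfd, ← hgd]
    exact Polynomial.natDegree_le_of_dvd (minpoly.dvd L z h1) hgm.ne_zero
  obtain ⟨hxi, hxd⟩ := hroot x hx
  obtain ⟨hyi, hyd⟩ := hroot y hy
  set M := IntermediateField.adjoin L {x} ⊔ IntermediateField.adjoin L {y} with hM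
  haveI : FiniteDimensional L (IntermediateField.adjoin L {x}) :=
    IntermediateField.adjoin.finiteDimensional hxi
  haveI : FiniteDimensional L (IntermediateField.adjoin L {y}) :=
    IntermediateField.adjoin.finiteDimensional hyi
  have hMd : Module.finrank L M ≤ n ^ 2 := by
    rw [pow_two]
    exact (IntermediateField.finrank_sup_le _ _).trans (Nat.mul_le_mul hxd hyd)
  haveI : FiniteDimensional L M := IntermediateField.finiteDimensional_sup _ _
  haveI : FiniteDimensional ℚ M := FiniteDimensional.trans ℚ L M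
  have hzM : x / y ∈ M := by
    refine M.div_mem ?_ ?_
    · exact (le_sup_left : _ ≤ M) (IntermediateField.mem_adjoin_simple_self L x)
    · exact (le_sup_right : _ ≤ M) (IntermediateField.mem_adjoin_simple_self L y)
  have h1 : (minpoly ℚ (x / y)).natDegree = m.totient := by
    rw [← Polynomial.cyclotomic_eq_minpoly_rat hprim hm, Polynomial.natDegree_cyclotomic]
  have h2 : minpoly ℚ (x / y) = minpoly ℚ (⟨x / y, hzM⟩ : M) :=
    minpoly.algebraMap_eq (B := M) (B' := 𝕜) (algebraMap M 𝕜).injective ⟨x / y, hzM⟩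
  have h3 := minpoly.natDegree_le (A := ℚ) (⟨x / y, hzM⟩ : M)
  rw [← h2, h1] at h3
  have h4 : Module.finrank ℚ M = Module.finrank ℚ L * Module.finrank L M :=
    (Module.finrank_mul_finrank ℚ L M).symm
  rw [h4] at h3
  have h5 := Nat.mul_le_mul_left (Module.finrank ℚ L) hMd
  omega

namespace AutRep

variable {K : Type} [Field K] [NumberField K] {T : AutRep K 𝕜}

/-- two extensions -/
theorem two [CharZero 𝕜] (hT : T.Known) {ψ η : GK K →* 𝕜ˣ} (hψ : IsCyc ψ) (hη : IsCyc η)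
    (hne : orderOf ψ ≠ orderOf η) (n : ℕ) (D : HeightOneSpectrum (𝓞 K) → Multiset 𝕜) (P : T.Y ψ)
    (Q : T.Y η) (hP : T.degE ψ P = n) (hPD : {v | ¬ Loc T ψ P (D v) v}.Finite)
    (hQD : {v | ¬ Loc T η Q (D v) v}.Finite) :
    ∃ F : T.X →₀ ℕ, T.bc ψ F = P ∧ T.bc η F = Q ∧ T.rk F = n ∧
      ∀ v, Loc T ψ P (D v) v → Loc T η Q (D v) v →
        (∀ x ∈ D v, ∀ y ∈ D v, ¬ IsPrimitiveRoot (x / y) (orderOf ψ * orderOf η)) →
        T.sat F v = some (D v) := by
  classical
  obtain ⟨F₁, rfl⟩ := hT.bc_surj ψ hψ P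
  obtain ⟨F₂, rfl⟩ := hT.bc_surj η hη Q
  have hrk : T.rk F₁ = n := by rw [← hT.bc_rk ψ hψ, hP]
  have hcomm : Commute (pm hT hψ.1) (pm hT hη.1) := by
    ext x
    rw [Equiv.Perm.mul_apply, Equiv.Perm.mul_apply]
    change T.tw ψ (T.tw η x) = T.tw η (T.tw ψ x)
    rw [← hT.tw_mul _ _ hψ.1 hη.1, ← hT.tw_mul _ _ hη.1 hψ.1]
    congr 1
    exact mul_comm ψ η
  have hpow : ∀ {χ : GK K →* 𝕜ˣ} (hχ : IsCyc χ), pm hT hχ.1 ^ orderOf χ = 1 := by
    intro χ hχ
    ext x
    have h1 : χ ^ orderOf χ = 1 := pow_orderOf_eq_one _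
    rw [pm_pow hT hχ.1, h1, tw_one hT]
    rfl
  have hcompat := compat hT hψ hη hPD hQD
  obtain ⟨g, hg1, hg2⟩ := pair hcomm (hpow hψ) (hpow hη) hψ.2.pos hη.2.pos n (⇑F₁) (⇑F₂)
    (by rw [← hrk]; exact mass_le hT F₁) (by
      have h3 : ⇑(NF η (NF ψ F₁)) = ⇑(NF ψ (NF η F₂)) := by rw [hcompat]
      rw [NF_coe hT hη.1, NF_coe hT hψ.1, NF_coe hT hψ.1, NF_coe hT hη.1] at h3
      exact h3)
  have hgfin : (Function.support g).Finite := by
    refine (NF ψ F₁).support.finite_toSet.subset ?_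
    intro x hx
    rw [Finset.mem_coe, Finsupp.mem_support_iff, NF_coe hT hψ.1]
    have h2 := le_nm (pm hT hψ.1) hψ.2.pos g x
    have h3 := congrFun hg1 x
    rw [Function.mem_support] at hx
    intro h4
    apply hx
    rw [h3, h4] at h2
    exact Nat.le_zero.1 h2
  set F : T.X →₀ ℕ := Finsupp.ofSupportFinite g hgfin with hFdef
  have hFg : ⇑F = g := rfl
  have hb1 : T.bc ψ F = T.bc ψ F₁ := by
    refine (bc_eq_iff hT hψ F F₁).2 ?_
    apply DFunLike.coe_injective
    rw [NF_coe hT hψ.1, NF_coe hT hψ.1, hFg]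
    exact hg1
  have hb2 : T.bc η F = T.bc η F₂ := by
    refine (bc_eq_iff hT hη F F₂).2 ?_
    apply DFunLike.coe_injective
    rw [NF_coe hT hη.1, NF_coe hT hη.1, hFg]
    exact hg2
  refine ⟨F, hb1, hb2, ?_, ?_⟩
  · rw [← hT.bc_rk ψ hψ, hb1, hP]
  · intro v hv1 hv2 hrat
    rw [← hb1] at hv1
    rw [← hb2] at hv2
    obtain ⟨a, M, ha, hM, hMa⟩ := hv1.ex hT hψ
    obtain ⟨b, M', hb, hM', hMb⟩ := hv2.ex hT hη
    rw [hM, Option.some_inj] at hM'
    subst hM'
    rw [hM, Option.some_inj]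
    rcases (Nat.dvd_prime hψ.2).1 (orderOf_dvd_of_pow_eq_one ha.pow_orderOf) with h1 | h1
    · rw [h1, pw_one, pw_one] at hMa
      exact hMa
    · rcases (Nat.dvd_prime hη.2).1 (orderOf_dvd_of_pow_eq_one hb.pow_orderOf) with h2 | h2
      · rw [h2, pw_one, pw_one] at hMb
        exact hMb
      · rw [h1] at hMa
        rw [h2] at hMb
        refine local_two hψ.2 hη.2 hne ?_ hrat hMa hMb
        intro h0
        have h3 : (0 : 𝕜) ^ orderOf ψ ∈ pw (orderOf ψ) (D v) := Multiset.mem_map_of_mem _ h0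
        rw [← hMa] at h3
        obtain ⟨z, hz, hz0⟩ := Multiset.mem_map.1 h3
        rw [zero_pow hψ.2.ne_zero] at hz0
        rw [eq_zero_of_pow_eq_zero hz0] at hz
        exact sat_ne_zero hT hM hz

end AutRep

end Pool.Agent.Q227.AK
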