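import Pool.Agent.Q227.AR.T4
import Pool.Agent.Q227.CD.Ram
import Pool.Agent.Q15.GRNT
import Pool.Agent.W401.Cheb.Frob

/-!
# Automorphic representations of `GL` over a number field, formally: cyclic extensions of prime
degree
-/

set_option autoImplicit false

namespace Pool.Agent.Q227.AK

open Pool.Agent.Q227.AR (nm nm_add nm_zero nm_apply_self nm_apply_pow nm_apply_inv nm_comp nm_comm nm_indicator nm_sub nm_cast le_nm Fam gp mem_gp tv mass mass_add mass_mono dl dl_self mass_dl dl_perm nm_dl mass_nm mass_pos sub_dl pair ob mem_ob ob_eq mass_split)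

open NumberField IsDedekindDomain Finset
open Pool.Agent.W401.Cheb

variable {K : Type} [Field K] [NumberField K] {𝕜 : Type} [Field 𝕜]

/-- multiplication of all members by a number -/
def sc (a : 𝕜ˣ) (M : Multiset 𝕜) : Multiset 𝕜 := M.map fun z => a * z

/-- powers of all members -/
def pw (n : ℕ) (M : Multiset 𝕜) : Multiset 𝕜 := M.map fun z => z ^ n

/-- the character `χ` of the absolute Galois group is unramified at `v`, with value `a` at the
Frobenius automorphisms -/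
def Val (v : HeightOneSpectrum (𝓞 K)) (χ : GK K →* 𝕜ˣ) (a : 𝕜ˣ) : Prop :=
  (∀ σ, IsInert v σ → χ σ = 1) ∧ ∀ σ, IsFrob v σ → χ σ = a

/-- characters of the absolute Galois group of prime order: cyclic extensions of prime degree, with
a generator of the character group -/
def IsCyc (χ : GK K →* 𝕜ˣ) : Prop := IsOpen (χ.ker : Set (GK K)) ∧ (orderOf χ).Prime

variable (K 𝕜) in
/-- the automorphic representations of the groups `GL_m(A_K)`, `m ≥ 1`, and of the groups
`GL_m(A_E)`, `E` a cyclic extension of `K` of prime degree, formally: their data -/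
structure AutRep where
  /-- the cuspidal automorphic representations over `K`, up to isomorphism; the isobaric ones are
  the elements of `X →₀ ℕ` -/
  X : Type
  /-- the rank `m` -/
  deg : X → ℕ
  /-- the Satake parameters of the local component at `v`, if it is unramified -/
  par : X → HeightOneSpectrum (𝓞 K) → Option (Multiset 𝕜)
  /-- the twist by the Hecke character of a character of finite order -/
  tw : (GK K →* 𝕜ˣ) → X → X
  /-- the Galois-invariant isobaric automorphic representations over the extension `E` of `K`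
  attached to `χ` -/
  Y : (GK K →* 𝕜ˣ) → Type
  /-- the rank -/
  degE : ∀ χ, Y χ → ℕ
  /-- for `v` unramified in `E`, the Satake parameters of the local components at the places of `E`
  above `v`, if they are unramified -/
  parE : ∀ χ, Y χ → HeightOneSpectrum (𝓞 K) → Option (Multiset 𝕜)
  /-- the base change from `K` to `E` -/
  bc : ∀ χ, (X →₀ ℕ) → Y χ

namespace AutRep

variable (T : AutRep K 𝕜)

/-- the rank of the isobaric sum of the `x`, each taken `F x` times -/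
noncomputable def rk (F : T.X →₀ ℕ) : ℕ := F.sum fun x a => a * T.deg x

/-- the Satake parameters of the local component at `v` of the isobaric sum of the `x`, each taken
`F x` times, if it is unramified -/
noncomputable def sat (F : T.X →₀ ℕ) (v : HeightOneSpectrum (𝓞 K)) : Option (Multiset 𝕜) := by
  classical
  exact if ∀ x ∈ F.support, T.par x v ≠ none then some (F.sum fun x a => a • (T.par x v).getD 0)
    else none

/-- known facts: ranks, ramification and twists; strong multiplicity one over `K` and over the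
cyclic extensions (Jacquet and Shalika); the local description and the image of the base change
(Arthur and Clozel) -/
structure Known : Prop where
  deg_pos : ∀ x, 0 < T.deg x
  card_par : ∀ x v M, T.par x v = some M → Multiset.card M = T.deg x ∧ 0 ∉ M
  finite_ram : ∀ x, {v | T.par x v = none}.Finite
  mult_one : ∀ F F' : T.X →₀ ℕ, {v | T.sat F v ≠ T.sat F' v}.Finite → F = F'
  tw_mul : ∀ χ χ' : GK K →* 𝕜ˣ, IsOpen (χ.ker : Set (GK K)) → IsOpen (χ'.ker : Set (GK K)) →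
    ∀ x, T.tw (χ * χ') x = T.tw χ (T.tw χ' x)
  tw_par : ∀ χ : GK K →* 𝕜ˣ, IsOpen (χ.ker : Set (GK K)) → ∀ v a, Val v χ a → ∀ x,
    T.par (T.tw χ x) v = (T.par x v).map (sc a)
  mult_oneE : ∀ χ, IsCyc χ → ∀ y y' : T.Y χ,
    {v | (∃ a, Val v χ a) ∧ T.parE χ y v ≠ T.parE χ y' v}.Finite → y = y'
  bc_rk : ∀ χ, IsCyc χ → ∀ F, T.degE χ (T.bc χ F) = T.rk F
  bc_par : ∀ χ, IsCyc χ → ∀ v a, Val v χ a → ∀ F,
    T.parE χ (T.bc χ F) v = (T.sat F v).map (pw (orderOf a))
  bc_surj : ∀ χ, IsCyc χ → ∀ y, ∃ F, T.bc χ F = y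

end AutRep

/-- unramified characters have a value -/
theorem exists_val {v : HeightOneSpectrum (𝓞 K)} {χ : GK K →* 𝕜ˣ}
    (h : ∀ σ, IsInert v σ → χ σ = 1) : ∃ a, Val v χ a := by
  obtain ⟨σ₀, hσ₀⟩ := (Pool.Agent.W401.Frob.main K).1 v
  refine ⟨χ σ₀, h, fun σ hσ => ?_⟩
  obtain ⟨g, i, hi, rfl⟩ := (Pool.Agent.W401.Frob.main K).2.1 v σ₀ σ hσ₀ hσ
  rw [map_mul, map_mul, map_mul, map_inv, h i hi, mul_one, mul_comm (χ g), mul_assoc,
    mul_inv_cancel, mul_one]

theorem Val.unique {v : HeightOneSpectrum (𝓞 K)} {χ : GK K →* 𝕜ˣ} {a b : 𝕜ˣ} (h : Val v χ a)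
    (h' : Val v χ b) : a = b := by
  obtain ⟨σ₀, hσ₀⟩ := (Pool.Agent.W401.Frob.main K).1 v
  rw [← h.2 σ₀ hσ₀, h'.2 σ₀ hσ₀]

theorem Val.mul {v : HeightOneSpectrum (𝓞 K)} {χ χ' : GK K →* 𝕜ˣ} {a b : 𝕜ˣ} (h : Val v χ a)
    (h' : Val v χ' b) : Val v (χ * χ') (a * b) :=
  ⟨fun σ hσ => by rw [MonoidHom.mul_apply, h.1 σ hσ, h'.1 σ hσ, mul_one],
    fun σ hσ => by rw [MonoidHom.mul_apply, h.2 σ hσ, h'.2 σ hσ]⟩

theorem Val.inv {v : HeightOneSpectrum (𝓞 K)} {χ : GK K →* 𝕜ˣ} {a : 𝕜ˣ} (h : Val v χ a) :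
    Val v χ⁻¹ a⁻¹ :=
  ⟨fun σ hσ => by rw [MonoidHom.inv_apply, h.1 σ hσ, inv_one],
    fun σ hσ => by rw [MonoidHom.inv_apply, h.2 σ hσ]⟩

theorem val_one (v : HeightOneSpectrum (𝓞 K)) : Val v (1 : GK K →* 𝕜ˣ) 1 :=
  ⟨fun _ _ => rfl, fun _ _ => rfl⟩

theorem Val.pow {v : HeightOneSpectrum (𝓞 K)} {χ : GK K →* 𝕜ˣ} {a : 𝕜ˣ} (h : Val v χ a) (k : ℕ) :
    Val v (χ ^ k) (a ^ k) :=
  ⟨fun σ hσ => by rw [MonoidHom.pow_apply, h.1 σ hσ, one_pow],
    fun σ hσ => by rw [MonoidHom.pow_apply, h.2 σ hσ]⟩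

/-- the order of the value -/
theorem Val.pow_orderOf {v : HeightOneSpectrum (𝓞 K)} {χ : GK K →* 𝕜ˣ} {a : 𝕜ˣ} (h : Val v χ a) :
    a ^ orderOf χ = 1 := by
  have h1 := h.pow (orderOf χ)
  rw [_root_.pow_orderOf_eq_one] at h1
  exact h1.unique (val_one v)

theorem ram_finite {χ : GK K →* 𝕜ˣ} (hχ : IsOpen (χ.ker : Set (GK K))) :
    {v : HeightOneSpectrum (𝓞 K) | ¬ ∃ a, Val v χ a}.Finite := by
  refine (Pool.Agent.Q227.CD.ram_finite χ.ker hχ).subset ?_
  intro v hv
  rw [Set.mem_setOf_eq] at hv ⊢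
  by_contra h
  push Not at h
  exact hv (exists_val fun σ hσ => h σ hσ)

theorem open_mul {χ χ' : GK K →* 𝕜ˣ} (hχ : IsOpen (χ.ker : Set (GK K)))
    (hχ' : IsOpen (χ'.ker : Set (GK K))) : IsOpen ((χ * χ').ker : Set (GK K)) := by
  have h1 : IsOpen ((χ.ker ⊓ χ'.ker : Subgroup (GK K)) : Set (GK K)) := hχ.inter hχ'
  refine Subgroup.isOpen_mono (H₁ := χ.ker ⊓ χ'.ker) (H₂ := (χ * χ').ker) ?_ h1
  rintro σ ⟨h2, h3⟩
  rw [MonoidHom.mem_ker, MonoidHom.mul_apply]
  have h2' : χ σ = 1 := h2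
  have h3' : χ' σ = 1 := h3
  rw [h2', h3', one_mul]

theorem open_inv {χ : GK K →* 𝕜ˣ} (hχ : IsOpen (χ.ker : Set (GK K))) :
    IsOpen ((χ⁻¹).ker : Set (GK K)) := by
  have h1 : (χ⁻¹).ker = χ.ker := by
    ext σ
    rw [MonoidHom.mem_ker, MonoidHom.mem_ker, MonoidHom.inv_apply, inv_eq_one]
  rw [h1]
  exact hχ

theorem open_one : IsOpen ((1 : GK K →* 𝕜ˣ).ker : Set (GK K)) := by
  have : ((1 : GK K →* 𝕜ˣ).ker : Set (GK K)) = Set.univ := by
    ext σ
    simp
  rw [this]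
  exact isOpen_univ

theorem open_pow {χ : GK K →* 𝕜ˣ} (hχ : IsOpen (χ.ker : Set (GK K))) (k : ℕ) :
    IsOpen ((χ ^ k).ker : Set (GK K)) := by
  induction k with
  | zero =>
    have h0 : χ ^ 0 = 1 := pow_zero χ
    rw [h0]
    exact open_one
  | succ k ih =>
    have h0 : χ ^ (k + 1) = χ ^ k * χ := pow_succ χ k
    rw [h0]
    exact open_mul ih hχ

section multiset

theorem sc_one (M : Multiset 𝕜) : sc 1 M = M := by
  unfold sc
  conv_rhs => rw [← Multiset.map_id M]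
  exact Multiset.map_congr rfl fun a _ => by simp

theorem sc_sc (a b : 𝕜ˣ) (M : Multiset 𝕜) : sc a (sc b M) = sc (a * b) M := by
  unfold sc
  rw [Multiset.map_map]
  exact Multiset.map_congr rfl fun x _ => by
    rw [Function.comp_apply, Units.val_mul, mul_assoc]

theorem sc_add (a : 𝕜ˣ) (M N : Multiset 𝕜) : sc a (M + N) = sc a M + sc a N :=
  Multiset.map_add _ _ _

theorem sc_zero (a : 𝕜ˣ) : sc a 0 = 0 := rfl

theorem sc_nsmul (a : 𝕜ˣ) (n : ℕ) (M : Multiset 𝕜) : sc a (n • M) = n • sc a M :=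
  Multiset.map_nsmul _ _ _

theorem card_sc (a : 𝕜ˣ) (M : Multiset 𝕜) : Multiset.card (sc a M) = Multiset.card M :=
  Multiset.card_map _ _

theorem count_sc [DecidableEq 𝕜] (a : 𝕜ˣ) (M : Multiset 𝕜) (x : 𝕜) :
    (sc a M).count x = M.count ((a⁻¹ : 𝕜ˣ) * x) := by
  have h1 : x = a * ((a⁻¹ : 𝕜ˣ) * x) := by
    rw [← mul_assoc, ← Units.val_mul, mul_inv_cancel, Units.val_one, one_mul]
  conv_lhs => rw [h1]
  unfold sc
  exact Multiset.count_map_eq_count' (fun z => (a : 𝕜) * z) M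
    (fun y z h => mul_left_cancel₀ a.ne_zero h) _

theorem pw_one (M : Multiset 𝕜) : pw 1 M = M := by
  unfold pw
  conv_rhs => rw [← Multiset.map_id M]
  exact Multiset.map_congr rfl fun a _ => pow_one a

theorem pw_add (n : ℕ) (M N : Multiset 𝕜) : pw n (M + N) = pw n M + pw n N :=
  Multiset.map_add _ _ _

theorem card_pw (n : ℕ) (M : Multiset 𝕜) : Multiset.card (pw n M) = Multiset.card M :=
  Multiset.card_map _ _

/-- the sum of the multiples by the powers of the inverse of a root of unity -/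
def sm (a : 𝕜ˣ) (p : ℕ) (M : Multiset 𝕜) : Multiset 𝕜 := ∑ k ∈ range p, sc ((a ^ k)⁻¹) M

theorem sm_add (a : 𝕜ˣ) (p : ℕ) (M N : Multiset 𝕜) : sm a p (M + N) = sm a p M + sm a p N := by
  unfold sm
  rw [← Finset.sum_add_distrib]
  exact Finset.sum_congr rfl fun k _ => sc_add _ _ _

theorem sc_sum (a : 𝕜ˣ) (s : Finset ℕ) (f : ℕ → Multiset 𝕜) :
    sc a (∑ k ∈ s, f k) = ∑ k ∈ s, sc a (f k) := by
  classical
  induction s using Finset.induction_on with
  | empty => rfl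
  | insert i s hi ih => rw [Finset.sum_insert hi, Finset.sum_insert hi, sc_add, ih]

theorem sm_comm (a b : 𝕜ˣ) (p q : ℕ) (M : Multiset 𝕜) : sm a p (sm b q M) = sm b q (sm a p M) := by
  unfold sm
  have h1 : ∀ (c d : 𝕜ˣ) (m n : ℕ), ∑ k ∈ range m, sc ((c ^ k)⁻¹) (∑ l ∈ range n, sc ((d ^ l)⁻¹) M)
      = ∑ k ∈ range m, ∑ l ∈ range n, sc ((c ^ k)⁻¹ * (d ^ l)⁻¹) M := by
    intro c d m n
    refine Finset.sum_congr rfl fun k _ => ?_
    rw [sc_sum]
    exact Finset.sum_congr rfl fun l _ => sc_sc _ _ _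
  rw [h1, h1, Finset.sum_comm]
  exact Finset.sum_congr rfl fun k _ => Finset.sum_congr rfl fun l _ => by rw [mul_comm]

end multiset

end Pool.Agent.Q227.AK
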