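import Pool.Agent.Q227.AK.A9

/-!
# Orbits of representations of rank one
-/

set_option autoImplicit false

namespace Pool.Agent.Q227.AK

open Pool.Agent.Q227.AR (nm nm_add nm_zero nm_apply_self nm_apply_pow nm_apply_inv nm_comp nm_comm nm_indicator nm_sub nm_cast le_nm Fam gp mem_gp tv mass mass_add mass_mono dl dl_self mass_dl dl_perm nm_dl mass_nm mass_pos sub_dl pair ob mem_ob ob_eq mass_split)

open NumberField IsDedekindDomain Finset
open Pool.Agent.W401.Cheb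

open scoped ENNReal

variable {K : Type} [Field K] [NumberField K] {𝕜 : Type} [Field 𝕜] [IsAlgClosed 𝕜]

namespace AutRep

variable {T : AutRep K 𝕜} {I : Finset (GK K →* 𝕜ˣ)}

/-- multiplicities and parameters -/
theorem count_sat (hT : T.Known) (hI : ∀ χ ∈ I, IsCyc χ)
    (hinj : Set.InjOn orderOf (I : Set (GK K →* 𝕜ˣ))) {J : Finset {χ // χ ∈ I}} {x₀ : T.X}
    (hx₀ : T.deg x₀ = 1) {v : HeightOneSpectrum (𝓞 K)} (hv : ∀ χ ∈ I, ∃ a, Val v χ a ∧ a ≠ 1)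
    (hpar : T.par x₀ v ≠ none) {F : T.X →₀ ℕ} (hF : ∀ x, F x ≠ 0 → x ∈ ob (pms hT hI) J x₀)
    {M : Multiset 𝕜} (hM : T.sat F v = some M) [DecidableEq 𝕜] {x : T.X}
    (hx : x ∈ ob (pms hT hI) J x₀) : M.count (cv x v) = F x := by
  classical
  have hv' : ∀ χ ∈ I, ∃ a, Val v χ a := fun χ hχ => (hv χ hχ).imp fun a ha => ha.1
  obtain ⟨-, h2⟩ := sat_eq_some.1 hM
  rw [← h2, Finsupp.sum, Multiset.count_sum']
  have h3 : ∀ y ∈ F.support, Multiset.count (cv x v) (F y • (T.par y v).getD 0)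
      = if x = y then F y else 0 := by
    intro y hy
    have hyS := hF y (Finsupp.mem_support_iff.1 hy)
    have hy1 : T.deg y = 1 := by rw [ob_deg hT hI hyS, hx₀]
    rw [(cv_spec hT hy1 (ob_par hT hI hyS hv' hpar)).1, Option.getD_some, Multiset.count_nsmul,
      Multiset.count_singleton]
    by_cases hxy : x = y
    · rw [if_pos hxy, hxy, if_pos rfl, mul_one]
    · rw [if_neg hxy, if_neg, mul_zero]
      intro h4
      exact hxy (cv_inj hT hI hinj hx₀ hv hpar hx hyS h4)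
  rw [Finset.sum_congr rfl h3, Finset.sum_ite_eq]
  split_ifs with h4
  · rfl
  · exact (Finsupp.notMem_support_iff.1 h4).symm

/-- the function given by the prescribed parameters -/
noncomputable def gv (hT : T.Known) (hI : ∀ χ ∈ I, IsCyc χ) (x₀ : T.X)
    (D : HeightOneSpectrum (𝓞 K) → Multiset 𝕜) (v : HeightOneSpectrum (𝓞 K)) : T.X → ℕ := by
  classical
  exact (ob (pms hT hI) Finset.univ x₀).indicator fun x => (D v).count (cv x v)

theorem gv_eq (hT : T.Known) (hI : ∀ χ ∈ I, IsCyc χ) (x₀ : T.X)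
    (D : HeightOneSpectrum (𝓞 K) → Multiset 𝕜) (v : HeightOneSpectrum (𝓞 K)) [DecidableEq 𝕜] :
    gv hT hI x₀ D v = (ob (pms hT hI) Finset.univ x₀).indicator fun x => (D v).count (cv x v) := by
  unfold gv
  congr 1
  funext x
  congr

theorem pow_mem_ob {X ι : Type} {s : ι → Equiv.Perm X} {J : Finset ι} {i : ι} (hi : i ∈ J)
    {x x₀ : X} (hx : x ∈ ob s J x₀) (k : ℕ) : (s i ^ k) x ∈ ob s J x₀ := by
  obtain ⟨a, ha, rfl⟩ := hx
  exact ⟨s i ^ k * a, (gp s J).mul_mem ((gp s J).pow_mem (mem_gp hi) k) ha, rfl⟩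

/-- sums over orbits of a function of the parameter -/
theorem nm_cv (hT : T.Known) (hI : ∀ χ ∈ I, IsCyc χ) (χ : {χ // χ ∈ I}) {x₀ x : T.X}
    (hx₀ : T.deg x₀ = 1) {v : HeightOneSpectrum (𝓞 K)} (hv : ∀ χ ∈ I, ∃ a, Val v χ a)
    (hpar : T.par x₀ v ≠ none) (hx : x ∈ ob (pms hT hI) Finset.univ x₀) [DecidableEq 𝕜]
    (M : Multiset 𝕜) :
    nm (pms hT hI χ) (orderOf χ.1)
      ((ob (pms hT hI) Finset.univ x₀).indicator fun y => M.count (cv y v)) x
      = (sm (vl χ.1 v) (orderOf χ.1) M).count (cv x v) := by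
  classical
  rw [count_sm]
  refine Finset.sum_congr rfl fun k _ => ?_
  rw [Set.indicator_of_mem (pow_mem_ob (Finset.mem_univ _) hx k), pm_pow]
  have h1 : T.deg x = 1 := by rw [ob_deg hT hI hx, hx₀]
  have h2 : T.par x v ≠ none := ob_par hT hI hx hv hpar
  rw [cv_tw hT (open_pow (hI χ χ.2).1 k) ((vl_spec (hv χ χ.2)).pow k) h1 h2]
  congr 1
  have h3 : ∀ (a : 𝕜ˣ) (k : ℕ) (z : 𝕜), (Units.mulLeft a ^ k) z = ((a ^ k : 𝕜ˣ) : 𝕜) * z := by
    intro a k z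
    induction k with
    | zero => simp
    | succ k ih =>
      rw [pow_succ', Equiv.Perm.mul_apply, ih, Units.mulLeft_apply, pow_succ', Units.val_mul,
        mul_assoc]
  rw [h3]

/-- the local equation -/
theorem loc_nm (hT : T.Known) (hI : ∀ χ ∈ I, IsCyc χ)
    (hinj : Set.InjOn orderOf (I : Set (GK K →* 𝕜ˣ))) {x₀ : T.X}
    (hx₀ : T.deg x₀ = 1) {v : HeightOneSpectrum (𝓞 K)} (hv : ∀ χ ∈ I, ∃ a, Val v χ a ∧ a ≠ 1)
    (hpar : T.par x₀ v ≠ none) (D : HeightOneSpectrum (𝓞 K) → Multiset 𝕜) (χ : {χ // χ ∈ I})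
    {F R : T.X →₀ ℕ} (hF : ∀ x, F x ≠ 0 → x ∈ ob (pms hT hI) Finset.univ x₀)
    (hloc : Loc T χ.1 (T.bc χ.1 (F + R)) (D v) v) [DecidableEq 𝕜] :
    ∃ MR, T.sat R v = some MR ∧ ∀ x ∈ ob (pms hT hI) Finset.univ x₀,
      nm (pms hT hI χ) (orderOf χ.1) (gv hT hI x₀ D v) x
      = nm (pms hT hI χ) (orderOf χ.1) F x + (sm (vl χ.1 v) (orderOf χ.1) MR).count (cv x v) := by
  classical
  have hv' : ∀ χ ∈ I, ∃ a, Val v χ a := fun χ hχ => (hv χ hχ).imp fun a ha => ha.1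
  obtain ⟨a, M, ha, hM, hMD⟩ := hloc.ex hT (hI χ χ.2)
  rw [sat_add] at hM
  obtain ⟨MF, MR, hMF, hMR, hMM⟩ := Option.map₂_eq_some_iff.1 hM
  refine ⟨MR, hMR, fun x hx => ?_⟩
  have hav : a = vl χ.1 v := ha.unique (vl_spec (hv' χ χ.2))
  rw [hav] at hMD
  have h1 := (sm_iff (hI χ χ.2).2 (vl_spec (hv' χ χ.2)).pow_orderOf M (D v)).2 hMD
  rw [gv_eq, nm_cv hT hI χ hx₀ hv' hpar hx, ← h1]
  have hMM' : M = MF + MR := hMM.symm
  rw [hMM', sm_add, Multiset.count_add, ← nm_cv hT hI χ hx₀ hv' hpar hx MF]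
  congr 2
  funext y
  by_cases hy : y ∈ ob (pms hT hI) Finset.univ x₀
  · rw [Set.indicator_of_mem hy]
    exact count_sat hT hI hinj hx₀ hv hpar hF hMF hy
  · rw [Set.indicator_of_notMem hy]
    by_contra hne
    exact hy (hF y (fun h => hne h.symm))

end AutRep

end Pool.Agent.Q227.AK
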