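import Pool.Agent.Q227.AK.A10

/-!
# Representations of rank one in different orbits have different parameters at some generic place
-/

set_option autoImplicit false

namespace Pool.Agent.Q227.AK

open Pool.Agent.Q227.AR (nm nm_add nm_zero nm_apply_self nm_apply_pow nm_apply_inv nm_comp nm_comm nm_indicator nm_sub nm_cast le_nm Fam gp mem_gp tv mass mass_add mass_mono dl dl_self mass_dl dl_perm nm_dl mass_nm mass_pos sub_dl pair ob mem_ob ob_eq mass_split)

open NumberField IsDedekindDomain Finset
open Pool.Agent.W401.Cheb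

open scoped ENNReal

variable {K : Type} [Field K] [NumberField K] {𝕜 : Type} [Field 𝕜] [IsAlgClosed 𝕜]

namespace AutRep

variable {T : AutRep K 𝕜} {I : Finset (GK K →* 𝕜ˣ)}

/-- the twists of a representation of rank one are distinct -/
theorem tw_ne (hT : T.Known) (hI : ∀ χ ∈ I, IsCyc χ)
    (hinj : Set.InjOn orderOf (I : Set (GK K →* 𝕜ˣ))) {θ : T.X} (hθ : T.deg θ = 1)
    {χ : GK K →* 𝕜ˣ} (hχ : χ ∈ I) : T.tw χ θ ≠ θ := by
  intro h
  obtain ⟨v, hv, hgen⟩ := exists_gen hI hinj (hT.finite_ram θ)
  obtain ⟨a, ha, hne⟩ := hgen χ hχ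
  have h1 := cv_tw hT (hI χ hχ).1 ha hθ hv
  rw [h] at h1
  apply hne
  apply Units.ext
  rw [Units.val_one]
  exact mul_right_cancel₀ (cv_spec hT hθ hv).2 (h1.symm.trans (one_mul _).symm)

theorem twF_support (χ : GK K →* 𝕜ˣ) (F : T.X →₀ ℕ) {x : T.X} (hx : twF χ F x ≠ 0) :
    ∃ y, F y ≠ 0 ∧ x = T.tw χ y := by
  classical
  have h1 : x ∈ (F.mapDomain (T.tw χ)).support := Finsupp.mem_support_iff.2 hx
  have h2 := Finsupp.mapDomain_support h1
  rw [Finset.mem_image] at h2
  obtain ⟨y, hy, hyx⟩ := h2
  exact ⟨y, Finsupp.mem_support_iff.1 hy, hyx.symm⟩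

theorem ob_mono {X ι : Type} {s : ι → Equiv.Perm X} {J J' : Finset ι} (h : J ⊆ J') {x y : X}
    (hx : x ∈ ob s J y) : x ∈ ob s J' y := by
  obtain ⟨a, ha, rfl⟩ := hx
  exact ⟨a, Subgroup.closure_mono (Set.image_mono (by exact_mod_cast h)) ha, rfl⟩

/-- representations of rank one in different orbits cannot have the same parameter at almost all
generic places -/
theorem cube (hT : T.Known) (hI : ∀ χ ∈ I, IsCyc χ)
    (hinj : Set.InjOn orderOf (I : Set (GK K →* 𝕜ˣ))) {θ w : T.X} (hθ : T.deg θ = 1)
    (hw : T.deg w = 1) (hne : θ ∉ ob (pms hT hI) Finset.univ w)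
    {S₀ : Set (HeightOneSpectrum (𝓞 K))} (hS₀ : S₀.Finite)
    (h : ∀ v ∉ S₀, (∀ χ ∈ I, ∃ a, Val v χ a ∧ a ≠ 1) → cv θ v = cv w v) : False := by
  classical
  have hfam := fam hT hI hinj
  have key : ∀ J : Finset {χ // χ ∈ I}, ∃ E E' : T.X →₀ ℕ,
      (∀ v, (∀ χ ∈ I, ∃ a, Val v χ a) → T.par θ v ≠ none → T.par w v ≠ none →
        ((∃ χ ∈ J, vl χ.1 v = 1) ∨ cv θ v = cv w v) → T.sat E v = T.sat E' v) ∧
      (∀ x, (E x ≠ 0 ∨ E' x ≠ 0) → x ∈ ob (pms hT hI) J θ ∨ x ∈ ob (pms hT hI) Finset.univ w) ∧
      E θ = E' θ + 1 := by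
    intro J
    induction J using Finset.induction_on with
    | empty =>
      refine ⟨Finsupp.single θ 1, Finsupp.single w 1, ?_, ?_, ?_⟩
      · intro v _ h1 h2 h3
        rcases h3 with ⟨χ, hχ, -⟩ | h3
        · exact absurd hχ (Finset.notMem_empty _)
        · rw [sat_single _ one_ne_zero, sat_single _ one_ne_zero, (cv_spec hT hθ h1).1,
            (cv_spec hT hw h2).1, h3]
      · rintro x (hx | hx)
        · left
          have : θ = x := by
            by_contra hne
            exact hx (Finsupp.single_eq_of_ne (fun e => hne e.symm))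
          rw [← this]
          exact mem_ob _ _
        · right
          have : w = x := by
            by_contra hne
            exact hx (Finsupp.single_eq_of_ne (fun e => hne e.symm))
          rw [← this]
          exact mem_ob _ _
      · have h1 : (Finsupp.single w 1 : T.X →₀ ℕ) θ = 0 := by
          apply Finsupp.single_eq_of_ne
          intro e
          apply hne
          rw [e]
          exact mem_ob _ _
        rw [Finsupp.single_eq_same, h1]
    | insert χ J hχJ ih =>
      obtain ⟨E, E', hE, hs, hc⟩ := ih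
      refine ⟨E + twF χ.1 E', E' + twF χ.1 E, ?_, ?_, ?_⟩
      · intro v hv h1 h2 h3
        have hvχ := vl_spec (hv χ.1 χ.2)
        rw [sat_add, sat_add, sat_twF hT (hI χ.1 χ.2).1 hvχ, sat_twF hT (hI χ.1 χ.2).1 hvχ]
        by_cases h4 : vl χ.1 v = 1
        · rw [h4]
          have h5 : ∀ o : Option (Multiset 𝕜), o.map (sc 1) = o := by
            intro o
            cases o with
            | none => rfl
            | some M => rw [Option.map_some, sc_one]
          rw [h5, h5]
          cases T.sat E v with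
          | none => simp
          | some M =>
            cases T.sat E' v with
            | none => simp
            | some M' => simp [add_comm]
        · have h5 : T.sat E v = T.sat E' v := by
            apply hE v hv h1 h2
            rcases h3 with ⟨χ', hχ', h6⟩ | h3
            · left
              rcases Finset.mem_insert.1 hχ' with rfl | h7
              · exact absurd h6 h4
              · exact ⟨χ', h7, h6⟩
            · exact Or.inr h3
          rw [h5]
      · have hstep : ∀ y, (y ∈ ob (pms hT hI) J θ ∨ y ∈ ob (pms hT hI) Finset.univ w) →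
            T.tw χ.1 y ∈ ob (pms hT hI) (insert χ J) θ ∨
              T.tw χ.1 y ∈ ob (pms hT hI) Finset.univ w := by
          rintro y (hy | hy)
          · left
            have h1 := ob_mono (Finset.subset_insert χ J) hy
            exact (hfam.ob_stable (Finset.mem_insert_self χ J) θ y).2 h1
          · right
            exact (hfam.ob_stable (Finset.mem_univ χ) w y).2 hy
        have hstep' : ∀ y, (y ∈ ob (pms hT hI) J θ ∨ y ∈ ob (pms hT hI) Finset.univ w) →
            y ∈ ob (pms hT hI) (insert χ J) θ ∨ y ∈ ob (pms hT hI) Finset.univ w := by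
          rintro y (hy | hy)
          · exact Or.inl (ob_mono (Finset.subset_insert χ J) hy)
          · exact Or.inr hy
        intro x hx
        by_cases h1 : E x ≠ 0 ∨ E' x ≠ 0
        · exact hstep' x (hs x h1)
        · push Not at h1
          have h2 : twF χ.1 E' x ≠ 0 ∨ twF χ.1 E x ≠ 0 := by
            rw [Finsupp.add_apply, Finsupp.add_apply, h1.1, h1.2, zero_add, zero_add] at hx
            exact hx
          rcases h2 with h2 | h2
          · obtain ⟨y, hy, rfl⟩ := twF_support χ.1 E' h2
            exact hstep y (hs y (Or.inr hy))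
          · obtain ⟨y, hy, rfl⟩ := twF_support χ.1 E h2
            exact hstep y (hs y (Or.inl hy))
      · have hzero : ∀ F : T.X →₀ ℕ, (∀ x, F x ≠ 0 → x ∈ ob (pms hT hI) J θ ∨
            x ∈ ob (pms hT hI) Finset.univ w) → twF χ.1 F θ = 0 := by
          intro F hF
          by_contra hne'
          obtain ⟨y, hy, hθy⟩ := twF_support χ.1 F hne'
          rcases hF y hy with h1 | h1
          · obtain ⟨γ, hγ, rfl⟩ := h1
            have h2 : (pms hT hI χ) (γ θ) = θ := hθy.symm
            have h3 : (pms hT hI χ ^ 1) θ = γ⁻¹ θ := by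
              have h4 := (hfam.comm_gp hγ χ).eq
              have h5 : γ ((pms hT hI χ) θ) = θ := by
                rw [← Equiv.Perm.mul_apply, h4]
                exact h2
              rw [pow_one]
              exact (Equiv.Perm.inv_eq_iff_eq.2 h5.symm).symm
            have h4 := hfam.fix hχJ ((gp (pms hT hI) J).inv_mem hγ) h3
            rw [pow_one] at h4
            exact tw_ne hT hI hinj hθ χ.2 h4
          · apply hne
            rw [hθy]
            exact (hfam.ob_stable (Finset.mem_univ χ) w y).2 h1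
        rw [Finsupp.add_apply, Finsupp.add_apply, hzero E' (fun x hx => hs x (Or.inr hx)),
          hzero E (fun x hx => hs x (Or.inl hx)), hc]
  obtain ⟨E, E', hE, -, hc⟩ := key Finset.univ
  have h1 : E = E' := by
    apply hT.mult_one
    have hfin : (S₀ ∪ ({v | T.par θ v = none} ∪ {v | T.par w v = none}) ∪
        ⋃ χ ∈ I, {v : HeightOneSpectrum (𝓞 K) | ¬ ∃ a, Val v χ a}).Finite :=
      (hS₀.union ((hT.finite_ram θ).union (hT.finite_ram w))).union
        (Set.Finite.biUnion (Finset.finite_toSet _) fun χ hχ => ram_finite (hI χ hχ).1)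
    refine hfin.subset ?_
    intro v hv
    by_contra hcon
    apply hv
    have hv1 : v ∉ S₀ := fun h => hcon (Or.inl (Or.inl h))
    have hv2 : T.par θ v ≠ none := fun h => hcon (Or.inl (Or.inr (Or.inl h)))
    have hv3 : T.par w v ≠ none := fun h => hcon (Or.inl (Or.inr (Or.inr h)))
    have hv4 : ∀ χ ∈ I, ∃ a, Val v χ a := by
      intro χ hχ
      by_contra hne
      exact hcon (Or.inr (Set.mem_biUnion hχ hne))
    apply hE v hv4 hv2 hv3
    by_cases h2 : ∃ χ ∈ (Finset.univ : Finset {χ // χ ∈ I}), vl χ.1 v = 1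
    · exact Or.inl h2
    · right
      apply h v hv1
      intro χ hχ
      refine ⟨vl χ v, vl_spec (hv4 χ hχ), fun e => h2 ⟨⟨χ, hχ⟩, Finset.mem_univ _, e⟩⟩
  rw [h1] at hc
  omega

end AutRep

end Pool.Agent.Q227.AK
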