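import Pool.Agent.Q227.AK.A11

/-!
# Solutions on the orbits of representations of rank one
-/

set_option autoImplicit false

namespace Pool.Agent.Q227.AK

open Pool.Agent.Q227.AR (nm nm_add nm_zero nm_apply_self nm_apply_pow nm_apply_inv nm_comp nm_comm nm_indicator nm_sub nm_cast le_nm Fam gp mem_gp tv mass mass_add mass_mono dl dl_self mass_dl dl_perm nm_dl mass_nm mass_pos sub_dl pair ob mem_ob ob_eq mass_split)

open NumberField IsDedekindDomain Finset
open Pool.Agent.W401.Cheb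

open scoped ENNReal

variable {K : Type} [Field K] [NumberField K] {𝕜 : Type} [Field 𝕜] [IsAlgClosed 𝕜]

namespace AutRep

variable {T : AutRep K 𝕜} {I : Finset (GK K →* 𝕜ˣ)}

theorem rk_add (F F' : T.X →₀ ℕ) : T.rk (F + F') = T.rk F + T.rk F' :=
  Finsupp.sum_add_index' (fun _ => zero_mul _) (fun _ _ _ => add_mul _ _ _)

theorem rk_single (x : T.X) (a : ℕ) : T.rk (Finsupp.single x a) = a * T.deg x :=
  Finsupp.sum_single_index (zero_mul _)

theorem rk_eq_zero (hT : T.Known) {R : T.X →₀ ℕ} (h : T.rk R = 0) : R = 0 := by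
  ext x
  by_contra hx
  unfold rk at h
  rw [Finsupp.sum, Finset.sum_eq_zero_iff] at h
  have h1 := h x (Finsupp.mem_support_iff.2 hx)
  have h2 := hT.deg_pos x
  rcases Nat.mul_eq_zero.1 h1 with h3 | h3
  · exact hx h3
  · omega

theorem rk_eq_one (hT : T.Known) {R : T.X →₀ ℕ} (h : T.rk R = 1) :
    ∃ θ, R = Finsupp.single θ 1 ∧ T.deg θ = 1 := by
  have hR : R ≠ 0 := by
    rintro rfl
    unfold rk at h
    rw [Finsupp.sum_zero_index] at h
    exact absurd h (by norm_num)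
  obtain ⟨θ, hθ⟩ := Finsupp.ne_iff.1 hR
  have hθ' : R θ ≠ 0 := hθ
  have h1 : R = (R - Finsupp.single θ 1) + Finsupp.single θ 1 := by
    ext x
    rw [Finsupp.add_apply, Finsupp.tsub_apply]
    by_cases hx : x = θ
    · subst hx
      rw [Finsupp.single_eq_same]
      omega
    · rw [Finsupp.single_eq_of_ne hx]
      omega
  rw [h1, rk_add, rk_single, one_mul] at h
  have h2 := hT.deg_pos θ
  have h3 : T.rk (R - Finsupp.single θ 1) = 0 := by omega
  refine ⟨θ, ?_, by omega⟩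
  rw [h1, rk_eq_zero hT h3, zero_add]

/-- the mass of a sum of representations of rank one -/
theorem mass_rk {F : T.X →₀ ℕ} (h : ∀ x, F x ≠ 0 → T.deg x = 1) :
    mass (⇑F) = (T.rk F : ℝ≥0∞) := by
  unfold mass rk
  rw [tsum_eq_sum (s := F.support)]
  · rw [Finsupp.sum, Nat.cast_sum]
    refine Finset.sum_congr rfl fun x hx => ?_
    rw [h x (Finsupp.mem_support_iff.1 hx), mul_one]
  · intro x hx
    rw [Finsupp.notMem_support_iff.1 hx, Nat.cast_zero]

/-- the restriction to a set -/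
noncomputable def rs (S : Set T.X) (F : T.X →₀ ℕ) : T.X →₀ ℕ := by
  classical
  exact F.filter (· ∈ S)

theorem rs_coe (S : Set T.X) (F : T.X →₀ ℕ) : ⇑(rs S F) = S.indicator F := by
  classical
  funext x
  unfold rs
  rw [Finsupp.filter_apply]
  by_cases hx : x ∈ S
  · rw [if_pos hx, Set.indicator_of_mem hx]
  · rw [if_neg hx, Set.indicator_of_notMem hx]

theorem rs_mem {S : Set T.X} {F : T.X →₀ ℕ} {x : T.X} (hx : rs S F x ≠ 0) : x ∈ S := by
  rw [rs_coe] at hx
  exact Set.mem_of_indicator_ne_zero hx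

theorem rs_add (S : Set T.X) (F : T.X →₀ ℕ) : rs S F + rs Sᶜ F = F := by
  classical
  apply DFunLike.coe_injective
  rw [Finsupp.coe_add, rs_coe, rs_coe]
  exact Set.indicator_self_add_compl S _

/-- orbits of representations of rank one -/
theorem orbit_one (hT : T.Known) (hI : ∀ χ ∈ I, IsCyc χ)
    (hinj : Set.InjOn orderOf (I : Set (GK K →* 𝕜ˣ))) {n : ℕ} (hn0 : 1 ≤ n) (hn : n ≤ I.card)
    (hn' : n < I.card ∨ 4 ≤ n) (D : HeightOneSpectrum (𝓞 K) → Multiset 𝕜)
    (F : {χ // χ ∈ I} → T.X →₀ ℕ) (hFn : ∀ χ, T.rk (F χ) = n)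
    (hloc : ∀ χ : {χ // χ ∈ I}, {v | ¬ Loc T χ.1 (T.bc χ.1 (F χ)) (D v) v}.Finite)
    (hc : ∀ χ χ' : {χ // χ ∈ I}, nm (pms hT hI χ') (orderOf χ'.1) (nm (pms hT hI χ) (orderOf χ.1)
      (F χ)) = nm (pms hT hI χ) (orderOf χ.1) (nm (pms hT hI χ') (orderOf χ'.1) (F χ')))
    {x₀ : T.X} (hx₀ : T.deg x₀ = 1)
    (hbig : ∀ χ, I.card ≤ T.rk (rs (ob (pms hT hI) Finset.univ x₀) (F χ)) + 1) :
    ∃ g : T.X → ℕ, ∀ χ, nm (pms hT hI χ) (orderOf χ.1) g
      = (ob (pms hT hI) Finset.univ x₀).indicator (nm (pms hT hI χ) (orderOf χ.1) (F χ)) := by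
  classical
  have hfam := fam hT hI hinj
  set S := ob (pms hT hI) Finset.univ x₀ with hS
  have hst : ∀ χ : {χ // χ ∈ I}, ∀ z, pms hT hI χ z ∈ S ↔ z ∈ S := fun χ z =>
    hfam.ob_stable (Finset.mem_univ χ) x₀ z
  have hst' : ∀ χ : {χ // χ ∈ I}, ∀ z, pms hT hI χ z ∈ Sᶜ ↔ z ∈ Sᶜ := fun χ z =>
    not_congr (hst χ z)
  obtain ⟨χ₀, hχ₀⟩ : I.Nonempty := Finset.card_pos.1 (by omega)
  have hnmS : ∀ χ, nm (pms hT hI χ) (orderOf χ.1) (rs S (F χ))
      = S.indicator (nm (pms hT hI χ) (orderOf χ.1) (F χ)) := by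
    intro χ
    rw [rs_coe, nm_indicator (hst χ)]
  have hdegS : ∀ x ∈ S, T.deg x = 1 := fun x hx => by rw [ob_deg hT hI hx, hx₀]
  -- ranks
  have hsum : ∀ χ, T.rk (rs S (F χ)) + T.rk (rs Sᶜ (F χ)) = n := by
    intro χ
    rw [← rk_add, rs_add, hFn]
  have hmS : ∀ χ, mass (⇑(rs S (F χ))) = (T.rk (rs S (F χ)) : ℝ≥0∞) := fun χ =>
    mass_rk fun x hx => hdegS x (rs_mem hx)
  have hrkeq : ∀ χ χ', T.rk (rs S (F χ)) = T.rk (rs S (F χ')) := by
    intro χ χ'
    have h1 := hfam.mass_eq (J := Finset.univ) (f := fun χ => ⇑(F χ))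
      (fun χ _ χ' _ => hc χ χ') x₀ (Finset.mem_univ χ) (Finset.mem_univ χ')
    have h2 : mass (⇑(rs S (F χ))) = mass (⇑(rs S (F χ'))) := by
      rw [rs_coe, rs_coe]
      exact h1
    rw [hmS, hmS] at h2
    exact_mod_cast h2
  -- good places
  have hgoodfin : ∀ y : T.X, ({v | T.par x₀ v = none} ∪ ({v | T.par y v = none} ∪
      ⋃ χ : {χ // χ ∈ I}, {v | ¬ Loc T χ.1 (T.bc χ.1 (F χ)) (D v) v})).Finite := fun y =>
    (hT.finite_ram x₀).union ((hT.finite_ram y).union (Set.finite_iUnion hloc))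
  by_contra hinf
  by_cases hzero : T.rk (rs Sᶜ (F ⟨χ₀, hχ₀⟩)) = 0
  · -- everything is in the orbit
    have hR : ∀ χ, rs Sᶜ (F χ) = 0 := by
      intro χ
      apply rk_eq_zero hT
      have h1 := hsum χ
      have h2 := hsum ⟨χ₀, hχ₀⟩
      have h3 := hrkeq χ ⟨χ₀, hχ₀⟩
      omega
    obtain ⟨v, hv, hgen⟩ := exists_gen hI hinj (hgoodfin x₀)
    have hpar : T.par x₀ v ≠ none := fun h => hv (Or.inl h)
    apply hinf
    refine ⟨gv hT hI x₀ D v, fun χ => ?_⟩
    have hl : Loc T χ.1 (T.bc χ.1 (rs S (F χ) + 0)) (D v) v := by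
      have h1 : rs S (F χ) + 0 = F χ := by
        rw [← hR χ, rs_add]
      rw [h1]
      by_contra hne
      exact hv (Or.inr (Or.inr (Set.mem_iUnion.2 ⟨χ, hne⟩)))
    obtain ⟨MR, hMR, h1⟩ := loc_nm hT hI hinj hx₀ hgen hpar D χ (fun x hx => rs_mem hx) hl
    rw [sat_zero, Option.some_inj] at hMR
    subst hMR
    rw [← hnmS]
    funext x
    by_cases hx : x ∈ S
    · rw [h1 x hx]
      have h2 : sm (vl χ.1 v) (orderOf χ.1) 0 = 0 := by
        unfold sm
        exact Finset.sum_eq_zero fun k _ => rfl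
      rw [h2, Multiset.count_zero, add_zero]
    · rw [gv_eq, nm_indicator (hst χ), Set.indicator_of_notMem hx, hnmS,
        Set.indicator_of_notMem hx]
  · -- one more representation of rank one
    have hR1 : ∀ χ, T.rk (rs Sᶜ (F χ)) = 1 := by
      intro χ
      have h1 := hsum χ
      have h2 := hsum ⟨χ₀, hχ₀⟩
      have h3 := hrkeq χ ⟨χ₀, hχ₀⟩
      have h4 := hbig χ
      omega
    have hn4 : 4 ≤ n := by
      rcases hn' with h | h
      · have h1 := hsum ⟨χ₀, hχ₀⟩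
        have h2 := hbig ⟨χ₀, hχ₀⟩
        omega
      · exact h
    have hθex : ∀ χ, ∃ θ, rs Sᶜ (F χ) = Finsupp.single θ 1 ∧ T.deg θ = 1 := fun χ =>
      rk_eq_one hT (hR1 χ)
    choose t ht ht1 using hθex
    have htS : ∀ χ, t χ ∉ S := by
      intro χ hχ
      have h1 : rs Sᶜ (F χ) (t χ) ≠ 0 := by
        rw [ht, Finsupp.single_eq_same]
        exact one_ne_zero
      exact (rs_mem h1) hχ
    -- a common representative
    obtain ⟨θ, hθ⟩ : ∃ θ : T.X, ∀ χ : {χ // χ ∈ I}, ∃ k : ℕ, t χ = T.tw (χ.1 ^ k) θ := by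
      obtain ⟨g₀, hg₀⟩ := hfam.exists_common 1 Finset.univ
        (by rw [Finset.card_univ, Fintype.card_coe]; omega) (fun χ => ⇑(rs Sᶜ (F χ)))
        (fun χ _ => by
          have h1 := mass_le hT (rs Sᶜ (F χ))
          rw [hR1] at h1
          exact h1) (by
        intro χ _ χ' _
        change nm (pms hT hI χ') (orderOf χ'.1) (nm (pms hT hI χ) (orderOf χ.1) (⇑(rs Sᶜ (F χ))))
          = nm (pms hT hI χ) (orderOf χ.1) (nm (pms hT hI χ') (orderOf χ'.1) (⇑(rs Sᶜ (F χ'))))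
        rw [rs_coe, rs_coe, nm_indicator (hst' χ), nm_indicator (hst' χ'), nm_indicator (hst' χ'),
          nm_indicator (hst' χ), hc])
      have h1 : g₀ ≠ 0 := by
        rintro rfl
        have h2 := congrFun (hg₀ ⟨χ₀, hχ₀⟩ (Finset.mem_univ _)) (t ⟨χ₀, hχ₀⟩)
        rw [nm_zero] at h2
        have h3 := le_nm (pms hT hI ⟨χ₀, hχ₀⟩) (hI χ₀ hχ₀).2.pos (⇑(rs Sᶜ (F ⟨χ₀, hχ₀⟩)))
          (t ⟨χ₀, hχ₀⟩)
        have h4 : rs Sᶜ (F ⟨χ₀, hχ₀⟩) (t ⟨χ₀, hχ₀⟩) = 1 := by
          rw [ht, Finsupp.single_eq_same]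
        have h5 : (0 : ℕ) = nm (pms hT hI ⟨χ₀, hχ₀⟩) (orderOf χ₀) (⇑(rs Sᶜ (F ⟨χ₀, hχ₀⟩)))
          (t ⟨χ₀, hχ₀⟩) := h2
        omega
      obtain ⟨θ, hθ⟩ := Function.ne_iff.1 h1
      refine ⟨θ, fun χ => ?_⟩
      by_contra hcon
      push Not at hcon
      have h2 := congrFun (hg₀ χ (Finset.mem_univ _)) θ
      have h3 := le_nm (pms hT hI χ) (hI χ.1 χ.2).2.pos g₀ θ
      have h4 : nm (pms hT hI χ) (orderOf χ.1) (⇑(rs Sᶜ (F χ))) θ = 0 := by
        refine Finset.sum_eq_zero fun k _ => ?_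
        rw [pm_pow, ht]
        exact Finsupp.single_eq_of_ne fun e => hcon k e.symm
      have h5 : nm (pms hT hI χ) (orderOf χ.1) g₀ θ
          = nm (pms hT hI χ) (orderOf χ.1) (⇑(rs Sᶜ (F χ))) θ := h2
      have h6 : g₀ θ ≠ 0 := hθ
      omega
    have hθ1 : T.deg θ = 1 := by
      obtain ⟨k, hk⟩ := hθ ⟨χ₀, hχ₀⟩
      rw [← ht1 ⟨χ₀, hχ₀⟩, hk, deg_tw hT (open_pow (hI χ₀ hχ₀).1 k)]
    have hθS : θ ∉ S := by
      intro h1
      obtain ⟨k, hk⟩ := hθ ⟨χ₀, hχ₀⟩
      apply htS ⟨χ₀, hχ₀⟩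
      rw [hk, ← pm_pow hT (hI χ₀ hχ₀).1]
      exact pow_mem_ob (s := pms hT hI) (i := ⟨χ₀, hχ₀⟩) (Finset.mem_univ _) h1 k
    -- the local situation
    have hlocal : ∀ v, v ∉ ({v | T.par x₀ v = none} ∪ ({v | T.par θ v = none} ∪
        ⋃ χ : {χ // χ ∈ I}, {v | ¬ Loc T χ.1 (T.bc χ.1 (F χ)) (D v) v})) →
        (∀ χ ∈ I, ∃ a, Val v χ a ∧ a ≠ 1) → ∃ w ∈ S, cv θ v = cv w v ∧ ∀ χ,
          nm (pms hT hI χ) (orderOf χ.1) (gv hT hI x₀ D v)
            = nm (pms hT hI χ) (orderOf χ.1) (⇑(rs S (F χ)))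
              + nm (pms hT hI χ) (orderOf χ.1) (dl w) := by
      intro v hv hgen
      have hv' : ∀ χ ∈ I, ∃ a, Val v χ a := fun χ hχ => (hgen χ hχ).imp fun a ha => ha.1
      have hpar : T.par x₀ v ≠ none := fun h => hv (Or.inl h)
      have hθp : T.par θ v ≠ none := fun h => hv (Or.inr (Or.inl h))
      have heq : ∀ χ, nm (pms hT hI χ) (orderOf χ.1) (gv hT hI x₀ D v)
            = nm (pms hT hI χ) (orderOf χ.1) (⇑(rs S (F χ)))
              + nm (pms hT hI χ) (orderOf χ.1)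
                (S.indicator fun y => Multiset.count (cv y v) {cv θ v}) := by
        intro χ
        have hl : Loc T χ.1 (T.bc χ.1 (rs S (F χ) + rs Sᶜ (F χ))) (D v) v := by
          rw [rs_add]
          by_contra hne
          exact hv (Or.inr (Or.inr (Set.mem_iUnion.2 ⟨χ, hne⟩)))
        obtain ⟨MR, hMR, h1⟩ := loc_nm hT hI hinj hx₀ hgen hpar D χ (fun x hx => rs_mem hx) hl
        obtain ⟨k, hk⟩ := hθ χ
        rw [ht, sat_single _ one_ne_zero, hk, hT.tw_par _ (open_pow (hI χ.1 χ.2).1 k) v _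
          ((vl_spec (hv' χ.1 χ.2)).pow k), (cv_spec hT hθ1 hθp).1, Option.map_some,
          Option.map_some, Option.some_inj, one_smul] at hMR
        funext x
        rw [Pi.add_apply]
        by_cases hx : x ∈ S
        · rw [h1 x hx, ← hMR, sm_sc_pow (vl_spec (hv' χ.1 χ.2)).pow_orderOf,
            nm_cv hT hI χ hx₀ hv' hpar hx]
        · rw [gv_eq, nm_indicator (hst χ), Set.indicator_of_notMem hx, hnmS,
            Set.indicator_of_notMem hx, nm_indicator (hst χ), Set.indicator_of_notMem hx,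
            add_zero]
      have hex : ∃ w ∈ S, cv θ v = cv w v := by
        by_contra hcon
        push Not at hcon
        apply hinf
        refine ⟨gv hT hI x₀ D v, fun χ => ?_⟩
        have h2 : (S.indicator fun y => Multiset.count (cv y v) {cv θ v}) = 0 := by
          funext y
          by_cases hy : y ∈ S
          · rw [Set.indicator_of_mem hy, Multiset.count_singleton,
              if_neg fun e => hcon y hy e.symm]
            rfl
          · rw [Set.indicator_of_notMem hy]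
            rfl
        rw [heq χ, h2, nm_zero, add_zero, hnmS]
      obtain ⟨w, hw, hwv⟩ := hex
      refine ⟨w, hw, hwv, fun χ => ?_⟩
      rw [heq χ]
      congr 2
      funext y
      by_cases hy : y ∈ S
      · rw [Set.indicator_of_mem hy, Multiset.count_singleton]
        unfold dl
        by_cases hyw : y = w
        · rw [if_pos hyw, if_pos (by rw [hyw, hwv])]
        · rw [if_neg hyw, if_neg]
          intro e
          exact hyw (cv_inj hT hI hinj hx₀ hgen hpar hy hw (e.trans hwv))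
      · rw [Set.indicator_of_notMem hy]
        unfold dl
        rw [if_neg]
        intro e
        exact hy (e ▸ hw)
    -- the masses
    have hrkS : ∀ χ, T.rk (rs S (F χ)) + 1 = n := fun χ => by
      have h1 := hsum χ
      have h2 := hR1 χ
      omega
    have hpp : ∀ χ : {χ // χ ∈ I}, (orderOf χ.1 : ℝ≥0∞) ≠ 0 := fun χ => by
      have := (hI χ.1 χ.2).2.ne_zero
      exact_mod_cast this
    have hmassg : ∀ v w, (∀ χ, nm (pms hT hI χ) (orderOf χ.1) (gv hT hI x₀ D v)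
            = nm (pms hT hI χ) (orderOf χ.1) (⇑(rs S (F χ)))
              + nm (pms hT hI χ) (orderOf χ.1) (dl w)) → mass (gv hT hI x₀ D v) = n := by
      intro v w h1
      have h2 := congrArg mass (h1 ⟨χ₀, hχ₀⟩)
      rw [mass_add, mass_nm, mass_nm, mass_nm, ← mul_add, mass_dl, hmS] at h2
      have h3 := (ENNReal.mul_right_inj (hpp ⟨χ₀, hχ₀⟩) (ENNReal.natCast_ne_top _)).1 h2
      rw [h3, ← hrkS ⟨χ₀, hχ₀⟩, Nat.cast_add, Nat.cast_one]
    -- the same representative everywhere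
    obtain ⟨v₁, hv₁, hgen₁⟩ := exists_gen hI hinj (hgoodfin θ)
    obtain ⟨w₁, hw₁, hwv₁, heq₁⟩ := hlocal v₁ hv₁ hgen₁
    have hw₁' : θ ∉ ob (pms hT hI) Finset.univ w₁ := by
      intro h1
      apply hθS
      obtain ⟨γ, hγ, rfl⟩ := h1
      obtain ⟨δ, hδ, rfl⟩ := hw₁
      exact ⟨γ * δ, (gp (pms hT hI) Finset.univ).mul_mem hγ hδ, rfl⟩
    refine cube hT hI hinj hθ1 (hdegS w₁ hw₁) hw₁' (hgoodfin θ) fun v hv hgen => ?_
    obtain ⟨w, hw, hwv, heq⟩ := hlocal v hv hgen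
    by_contra hne
    have hww : w ≠ w₁ := by
      rintro rfl
      exact hne hwv
    have h1 : gv hT hI x₀ D v + dl w₁ = gv hT hI x₀ D v₁ + dl w := by
      refine hfam.unique2 (J := Finset.univ) ?_ fun χ _ => ?_
      · rw [mass_add, mass_add, mass_dl, mass_dl, hmassg v w heq, hmassg v₁ w₁ heq₁,
          Finset.card_univ, Fintype.card_coe]
        have h2 : n + 1 + (n + 1) < 2 ^ I.card := by
          have h3 : 2 ^ n ≤ 2 ^ I.card := Nat.pow_le_pow_right (by norm_num) hn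
          have h4 : ∀ m, 4 ≤ m → m + 1 + (m + 1) < 2 ^ m := by
            intro m hm
            induction m, hm using Nat.le_induction with
            | base => norm_num
            | succ m hm ih =>
              rw [pow_succ]
              omega
          exact (h4 n hn4).trans_le h3
        exact_mod_cast h2
      · have e1 : nm (pms hT hI χ) (orderOf χ.1) (gv hT hI x₀ D v + dl w₁)
            = nm (pms hT hI χ) (orderOf χ.1) (gv hT hI x₀ D v₁ + dl w) := by
          rw [nm_add, nm_add, heq χ, heq₁ χ]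
          abel
        exact e1
    have h2 := congrFun h1 w
    rw [Pi.add_apply, Pi.add_apply, dl_self] at h2
    have h3 : dl w₁ w = 0 := by
      unfold dl
      rw [if_neg hww]
    rw [h3] at h2
    have h4 : gv hT hI x₀ D v w ≠ 0 := by omega
    obtain ⟨g', hg'⟩ := sub_dl h4
    apply hinf
    refine ⟨g', fun χ => ?_⟩
    have h5 := heq χ
    rw [hg', nm_add] at h5
    rw [← hnmS]
    funext x
    have h6 := congrFun h5 x
    rw [Pi.add_apply, Pi.add_apply] at h6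
    omega

end AutRep

end Pool.Agent.Q227.AK
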