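import Pool.Agent.Q227.AK.A12

/-!
# Descent from `n` cyclic extensions of different prime degrees
-/

set_option autoImplicit false

namespace Pool.Agent.Q227.AK

open Pool.Agent.Q227.AR (nm nm_add nm_zero nm_apply_self nm_apply_pow nm_apply_inv nm_comp nm_comm nm_indicator nm_sub nm_cast le_nm Fam gp mem_gp tv mass mass_add mass_mono dl dl_self mass_dl dl_perm nm_dl mass_nm mass_pos sub_dl pair ob mem_ob ob_eq mass_split)

open NumberField IsDedekindDomain Finset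
open Pool.Agent.W401.Cheb

open scoped ENNReal

variable {K : Type} [Field K] [NumberField K] {𝕜 : Type} [Field 𝕜] [IsAlgClosed 𝕜]

/-- multisets of `n` numbers are determined by their powers in more than `log_2 n + 1`
directions -/
theorem local_unique2 {ι : Type} (J : Finset ι) (a : ι → 𝕜ˣ) (p : ι → ℕ)
    (hp : ∀ i ∈ J, (p i).Prime) (hinj : ∀ i ∈ J, ∀ j ∈ J, p i = p j → i = j)
    (ha : ∀ i ∈ J, a i ^ p i = 1) {A B : Multiset 𝕜}
    (hJ : Multiset.card A + Multiset.card B < 2 ^ J.card)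
    (h : ∀ i ∈ J, pw (orderOf (a i)) A = pw (orderOf (a i)) B) : A = B := by
  classical
  have hF : Fam (ι := {i // i ∈ J}) (fun i => Units.mulLeft (a i)) (fun i => p i) := by
    refine ⟨?_, ?_, ?_, ?_⟩
    · intro i j
      ext x
      rw [Equiv.Perm.mul_apply, Equiv.Perm.mul_apply]
      simp only [Units.mulLeft_apply]
      rw [← mul_assoc, ← mul_assoc, mul_comm (a i : 𝕜)]
    · intro i
      ext x
      have h1 : ∀ k : ℕ, (Units.mulLeft (a i) ^ k) x = ((a i ^ k : 𝕜ˣ) : 𝕜) * x := by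
        intro k
        induction k with
        | zero => simp
        | succ k ih =>
          rw [pow_succ', Equiv.Perm.mul_apply, ih, Units.mulLeft_apply, pow_succ', Units.val_mul,
            mul_assoc]
      rw [h1, ha i i.2, Units.val_one, one_mul, Equiv.Perm.one_apply]
    · intro i
      exact (hp i i.2).pos
    · intro i j hij
      rw [Nat.coprime_primes (hp i i.2) (hp j j.2)]
      intro e
      exact hij (Subtype.ext (hinj i i.2 j j.2 e))
  have h1 : (fun x => A.count x) = fun x => B.count x := by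
    refine hF.unique2 (J := Finset.univ) ?_ ?_
    · rw [Finset.card_univ, Fintype.card_coe, mass_count, mass_count]
      exact_mod_cast hJ
    · intro i _
      funext x
      rw [← count_sm, ← count_sm, (sm_iff (hp i i.2) (ha i i.2) A B).2 (h i i.2)]
  ext x
  exact congrFun h1 x

theorem two_mul_lt {n m : ℕ} (hn : n ≤ m) (hn' : n < m ∨ 4 ≤ n) : n + n < 2 ^ m := by
  have h4 : ∀ m, 4 ≤ m → m + m < 2 ^ m := by
    intro m hm
    induction m, hm using Nat.le_induction with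
    | base => norm_num
    | succ m hm ih =>
      rw [pow_succ]
      omega
  rcases hn' with h | h
  · have h5 : n < 2 ^ n := Nat.lt_two_pow_self
    have h6 : 2 ^ (n + 1) ≤ 2 ^ m := Nat.pow_le_pow_right (by norm_num) h
    rw [pow_succ] at h6
    omega
  · have h5 := h4 n h
    have h6 : 2 ^ n ≤ 2 ^ m := Nat.pow_le_pow_right (by norm_num) hn
    omega

namespace AutRep

variable {T : AutRep K 𝕜}

/-- the parameters at a place with enough information -/
theorem sat_of_loc2 (hT : T.Known) {I : Finset (GK K →* 𝕜ˣ)} (hI : ∀ χ ∈ I, IsCyc χ)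
    (hinj : Set.InjOn orderOf (I : Set (GK K →* 𝕜ˣ))) {n : ℕ} (hIn : n + n < 2 ^ I.card)
    (hne : I.Nonempty) {F : T.X →₀ ℕ} (hF : T.rk F = n) {D : Multiset 𝕜}
    {v : HeightOneSpectrum (𝓞 K)} (h : ∀ χ ∈ I, Loc T χ (T.bc χ F) D v) :
    T.sat F v = some D := by
  obtain ⟨χ₀, hχ₀⟩ := hne
  obtain ⟨a₀, M, ha₀, hM, hMD⟩ := (h χ₀ hχ₀).ex hT (hI χ₀ hχ₀)
  have hMn : Multiset.card M = n := by rw [sat_card hT hM, hF]
  have hDn : Multiset.card D = n := by
    rw [← card_pw (orderOf a₀), ← hMD, card_pw, hMn]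
  have h1 : ∀ χ : GK K →* 𝕜ˣ, ∃ a : 𝕜ˣ, χ ∈ I → Val v χ a ∧ pw (orderOf a) M = pw (orderOf a) D := by
    intro χ
    by_cases hχ : χ ∈ I
    · obtain ⟨a, M', ha, hM', hMD'⟩ := (h χ hχ).ex hT (hI χ hχ)
      rw [hM, Option.some_inj] at hM'
      subst hM'
      exact ⟨a, fun _ => ⟨ha, hMD'⟩⟩
    · exact ⟨1, fun h' => absurd h' hχ⟩
  choose a ha using h1
  rw [hM, Option.some_inj]
  exact local_unique2 I a orderOf (fun χ hχ => (hI χ hχ).2) (fun χ hχ χ' hχ' e => hinj hχ hχ' e)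
    (fun χ hχ => (ha χ hχ).1.pow_orderOf) (by rw [hMn, hDn]; exact hIn)
    fun χ hχ => (ha χ hχ).2

/-- the main theorem -/
theorem main2 (hT : T.Known) (n : ℕ) (hn0 : 1 ≤ n) (I : Finset (GK K →* 𝕜ˣ))
    (hI : ∀ χ ∈ I, IsCyc χ) (hinj : Set.InjOn orderOf (I : Set (GK K →* 𝕜ˣ)))
    (hn : n ≤ I.card) (hn' : n < I.card ∨ 4 ≤ n)
    (D : HeightOneSpectrum (𝓞 K) → Multiset 𝕜) (P : ∀ χ, T.Y χ)
    (hP : ∀ χ ∈ I, T.degE χ (P χ) = n ∧ {v | ¬ Loc T χ (P χ) (D v) v}.Finite) :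
    ∃ F : T.X →₀ ℕ, (∀ F' : T.X →₀ ℕ, (∀ χ ∈ I, T.bc χ F' = P χ) ↔ F' = F) ∧ T.rk F = n ∧
      {v | T.sat F v ≠ some (D v)}.Finite ∧
      ∀ J ⊆ I, 2 * n < 2 ^ J.card → ∀ v, (∀ χ ∈ J, Loc T χ (P χ) (D v) v) →
        T.sat F v = some (D v) := by
  classical
  have hfam := fam hT hI hinj
  obtain ⟨χ₀, hχ₀⟩ : I.Nonempty := Finset.card_pos.1 (by omega)
  -- descents
  have h1 : ∀ χ : {χ // χ ∈ I}, ∃ F : T.X →₀ ℕ, T.bc χ.1 F = P χ.1 := fun χ =>
    hT.bc_surj χ.1 (hI χ χ.2) (P χ.1)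
  choose G hG using h1
  have hrkG : ∀ χ, T.rk (G χ) = n := by
    intro χ
    rw [← hT.bc_rk χ.1 (hI χ χ.2), hG]
    exact (hP χ χ.2).1
  have hlocG : ∀ χ : {χ // χ ∈ I}, {v | ¬ Loc T χ.1 (T.bc χ.1 (G χ)) (D v) v}.Finite := by
    intro χ
    rw [hG]
    exact (hP χ χ.2).2
  have hmass : ∀ F : T.X →₀ ℕ, T.rk F = n → mass (⇑F) ≤ (n : ℝ≥0∞) := by
    intro F hF
    rw [← hF]
    exact mass_le hT F
  have hc : ∀ χ χ' : {χ // χ ∈ I}, nm (pms hT hI χ') (orderOf χ'.1)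
      (nm (pms hT hI χ) (orderOf χ.1) (G χ))
      = nm (pms hT hI χ) (orderOf χ.1) (nm (pms hT hI χ') (orderOf χ'.1) (G χ')) := by
    intro χ χ'
    have h2 := compat hT (hI χ χ.2) (hI χ' χ'.2) (F := G χ) (F' := G χ') (D := D)
      (hlocG χ) (hlocG χ')
    have h3 : ⇑(NF χ'.1 (NF χ.1 (G χ))) = ⇑(NF χ.1 (NF χ'.1 (G χ'))) := by rw [h2]
    rw [NF_coe hT (hI χ' χ'.2).1, NF_coe hT (hI χ χ.2).1, NF_coe hT (hI χ χ.2).1,
      NF_coe hT (hI χ' χ'.2).1] at h3
    exact h3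
  obtain ⟨g, hg⟩ : ∃ g : T.X → ℕ, ∀ χ ∈ (Finset.univ : Finset {χ // χ ∈ I}),
      nm (pms hT hI χ) (orderOf χ.1) g = nm (pms hT hI χ) (orderOf χ.1) (G χ) := by
    refine hfam.glue Finset.univ (fun χ => ⇑(G χ)) fun x₀ => ?_
    by_cases hsmall : ∀ χ : {χ // χ ∈ I},
        mass ((ob (pms hT hI) Finset.univ x₀).indicator (G χ)) ≤ ((I.card - 2 : ℕ) : ℝ≥0∞)
    · exact hfam.small (n := I.card - 2) (by
        rw [Finset.card_univ, Fintype.card_coe]
        have : 2 ≤ I.card := by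
          rcases hn' with h | h <;> omega
        omega) (fun χ _ χ' _ => hc χ χ') x₀ fun χ _ => hsmall χ
    · push Not at hsmall
      obtain ⟨χ₁, hχ₁⟩ := hsmall
      have hI2 : 2 ≤ I.card := by
        rcases hn' with h | h <;> omega
      -- the number of constituents in the orbit
      have hlt : ∀ χ, I.card ≤ (∑ x ∈ (rs (ob (pms hT hI) Finset.univ x₀) (G χ)).support,
          rs (ob (pms hT hI) Finset.univ x₀) (G χ) x) + 1 := by
        intro χ
        have h2 := hfam.mass_eq (J := Finset.univ) (f := fun χ => ⇑(G χ))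
          (fun χ _ χ' _ => hc χ χ') x₀ (Finset.mem_univ χ) (Finset.mem_univ χ₁)
        have h3 : mass (⇑(rs (ob (pms hT hI) Finset.univ x₀) (G χ)))
            = ((∑ x ∈ (rs (ob (pms hT hI) Finset.univ x₀) (G χ)).support,
              rs (ob (pms hT hI) Finset.univ x₀) (G χ) x : ℕ) : ℝ≥0∞) := by
          unfold mass
          rw [tsum_eq_sum (s := (rs (ob (pms hT hI) Finset.univ x₀) (G χ)).support),
            Nat.cast_sum]
          intro x hx
          rw [Finsupp.notMem_support_iff.1 hx, Nat.cast_zero]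
        have h4 : ((I.card - 2 : ℕ) : ℝ≥0∞)
            < mass (⇑(rs (ob (pms hT hI) Finset.univ x₀) (G χ))) := by
          rw [rs_coe]
          exact hχ₁.trans_eq h2.symm
        rw [h3, Nat.cast_lt] at h4
        omega
      -- the rank is one
      have hrkS : ∀ χ, T.rk (rs (ob (pms hT hI) Finset.univ x₀) (G χ))
          = (∑ x ∈ (rs (ob (pms hT hI) Finset.univ x₀) (G χ)).support,
          rs (ob (pms hT hI) Finset.univ x₀) (G χ) x) * T.deg x₀ := by
        intro χ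
        unfold rk
        rw [Finsupp.sum, Finset.sum_mul]
        refine Finset.sum_congr rfl fun x hx => ?_
        rw [ob_deg hT hI (rs_mem (Finsupp.mem_support_iff.1 hx))]
      have hle : ∀ χ, T.rk (rs (ob (pms hT hI) Finset.univ x₀) (G χ)) ≤ n := by
        intro χ
        have h2 := rk_add (rs (ob (pms hT hI) Finset.univ x₀) (G χ))
          (rs (ob (pms hT hI) Finset.univ x₀)ᶜ (G χ))
        rw [rs_add, hrkG] at h2
        omega
      have hx₀ : T.deg x₀ = 1 := by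
        have h2 := hT.deg_pos x₀
        by_contra hne
        have h3 : 2 ≤ T.deg x₀ := by omega
        have h4 := hle ⟨χ₀, hχ₀⟩
        rw [hrkS] at h4
        have h5 := hlt ⟨χ₀, hχ₀⟩
        have h6 := Nat.mul_le_mul_left (∑ x ∈ (rs (ob (pms hT hI) Finset.univ x₀)
          (G ⟨χ₀, hχ₀⟩)).support, rs (ob (pms hT hI) Finset.univ x₀) (G ⟨χ₀, hχ₀⟩) x) h3
        rcases hn' with h | h <;> omega
      obtain ⟨g, hg⟩ := orbit_one hT hI hinj hn0 hn hn' D G hrkG hlocG hc hx₀ fun χ => by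
        rw [hrkS, hx₀, mul_one]
        exact hlt χ
      exact ⟨g, fun χ _ => hg χ⟩
  have hgfin : (Function.support g).Finite := by
    refine (NF χ₀ (G ⟨χ₀, hχ₀⟩)).support.finite_toSet.subset ?_
    intro x hx
    rw [Finset.mem_coe, Finsupp.mem_support_iff, NF_coe hT (hI χ₀ hχ₀).1]
    have h2 := le_nm (pm hT (hI χ₀ hχ₀).1) (hI χ₀ hχ₀).2.pos g x
    have h3 := congrFun (hg ⟨χ₀, hχ₀⟩ (Finset.mem_univ _)) x
    rw [Function.mem_support] at hx
    intro h4
    apply hx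
    have h5 : nm (pm hT (hI χ₀ hχ₀).1) (orderOf χ₀) g x
        = nm (pm hT (hI χ₀ hχ₀).1) (orderOf χ₀) (⇑(G ⟨χ₀, hχ₀⟩)) x := h3
    rw [h5, h4] at h2
    exact Nat.le_zero.1 h2
  set F : T.X →₀ ℕ := Finsupp.ofSupportFinite g hgfin with hFdef
  have hFg : ⇑F = g := rfl
  have hbc : ∀ χ ∈ I, T.bc χ F = P χ := by
    intro χ hχ
    rw [← hG ⟨χ, hχ⟩]
    refine (bc_eq_iff hT (hI χ hχ) F (G ⟨χ, hχ⟩)).2 ?_
    apply DFunLike.coe_injective
    rw [NF_coe hT (hI χ hχ).1, NF_coe hT (hI χ hχ).1, hFg]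
    exact hg ⟨χ, hχ⟩ (Finset.mem_univ _)
  have hrk : ∀ F' : T.X →₀ ℕ, (∀ χ ∈ I, T.bc χ F' = P χ) → T.rk F' = n := by
    intro F' hF'
    rw [← hT.bc_rk χ₀ (hI χ₀ hχ₀), hF' χ₀ hχ₀]
    exact (hP χ₀ hχ₀).1
  have hloc : ∀ J ⊆ I, 2 * n < 2 ^ J.card → ∀ v, (∀ χ ∈ J, Loc T χ (P χ) (D v) v) →
      T.sat F v = some (D v) := by
    intro J hJ hJn v hv
    have hJne : J.Nonempty := by
      rw [Finset.nonempty_iff_ne_empty]
      rintro rfl
      rw [Finset.card_empty, pow_zero] at hJn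
      omega
    refine sat_of_loc2 hT (I := J) (fun χ hχ => hI χ (hJ hχ)) (hinj.mono ?_) (n := n)
      (by omega) hJne (hrk F hbc) fun χ hχ => ?_
    · exact_mod_cast hJ
    · rw [hbc χ (hJ hχ)]
      exact hv χ hχ
  have h2n := two_mul_lt hn hn'
  refine ⟨F, fun F' => ⟨fun hF' => ?_, fun e => e ▸ hbc⟩, hrk F hbc, ?_, hloc⟩
  · apply DFunLike.coe_injective
    refine hfam.unique2 (J := Finset.univ) ?_ ?_
    · rw [Finset.card_univ, Fintype.card_coe]
      refine (add_le_add (hmass F' (hrk F' hF')) (hmass F (hrk F hbc))).trans_lt ?_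
      exact_mod_cast h2n
    · intro χ _
      have h2 := (bc_eq_iff hT (hI χ χ.2) F' F).1 (by rw [hF' χ χ.2, hbc χ χ.2])
      have h3 : ⇑(NF χ.1 F') = ⇑(NF χ.1 F) := by rw [h2]
      rw [NF_coe hT (hI χ χ.2).1, NF_coe hT (hI χ χ.2).1] at h3
      exact h3
  · have h2 : (⋃ χ ∈ I, {v | ¬ Loc T χ (P χ) (D v) v}).Finite :=
      Set.Finite.biUnion I.finite_toSet fun χ hχ => (hP χ hχ).2
    refine h2.subset ?_
    intro v hv
    by_contra hcon
    apply hv
    apply hloc I (Finset.Subset.refl _) (by omega) v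
    intro χ hχ
    by_contra hne
    exact hcon (Set.mem_biUnion hχ hne)

end AutRep

end Pool.Agent.Q227.AK
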