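import Pool.Agent.Q227.AK.A1
import Pool.Agent.Q227.AR.A2

/-!
# Multisets of complex numbers and their powers
-/

set_option autoImplicit false

namespace Pool.Agent.Q227.AK

open Pool.Agent.Q227.AR (nm nm_add nm_zero nm_apply_self nm_apply_pow nm_apply_inv nm_comp nm_comm nm_indicator nm_sub nm_cast le_nm Fam gp mem_gp tv mass mass_add mass_mono dl dl_self mass_dl dl_perm nm_dl mass_nm mass_pos sub_dl pair ob mem_ob ob_eq mass_split)

open Finset

open scoped ENNReal

variable {𝕜 : Type} [Field 𝕜] [IsAlgClosed 𝕜]


/-- periodicity -/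
theorem sm_sc {a : 𝕜ˣ} {p : ℕ} (ha : a ^ p = 1) (M : Multiset 𝕜) : sm a p (sc a M) = sm a p M := by
  unfold sm
  rcases Nat.eq_zero_or_pos p with rfl | hp
  · rfl
  obtain ⟨q, rfl⟩ : ∃ q, p = q + 1 := ⟨p - 1, by omega⟩
  rw [Finset.sum_range_succ', Finset.sum_range_succ (fun k => sc ((a ^ k)⁻¹) M)]
  refine congrArg₂ (· + ·) (Finset.sum_congr rfl fun k _ => ?_) ?_
  · rw [sc_sc]
    congr 1
    rw [pow_succ, mul_inv, inv_mul_cancel_right]
  · rw [sc_sc]
    congr 1
    have h1 : a ^ q * a = 1 := by rw [← pow_succ, ha]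
    rw [pow_zero, inv_one, one_mul]
    exact (inv_eq_of_mul_eq_one_right h1).symm

theorem sm_sc_pow {a : 𝕜ˣ} {p : ℕ} (ha : a ^ p = 1) (j : ℕ) (M : Multiset 𝕜) :
    sm a p (sc (a ^ j) M) = sm a p M := by
  induction j with
  | zero => rw [pow_zero, sc_one]
  | succ j ih => rw [pow_succ', ← sc_sc, sm_sc ha, ih]

theorem pw_sc (a : 𝕜ˣ) (n : ℕ) (M : Multiset 𝕜) : pw n (sc a M) = sc (a ^ n) (pw n M) := by
  unfold pw sc
  rw [Multiset.map_map, Multiset.map_map]
  exact Multiset.map_congr rfl fun x _ => by
    rw [Function.comp_apply, Function.comp_apply, mul_pow, Units.val_pow_eq_pow_val]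

theorem nsmul_inj' {n : ℕ} (hn : n ≠ 0) {A B : Multiset 𝕜} (h : n • A = n • B) : A = B := by
  classical
  ext x
  have h1 := congrArg (Multiset.count x) h
  rw [Multiset.count_nsmul, Multiset.count_nsmul] at h1
  exact Nat.eq_of_mul_eq_mul_left (Nat.pos_of_ne_zero hn) h1

theorem sm_iff {a : 𝕜ˣ} {p : ℕ} (hp : p.Prime) (ha : a ^ p = 1) (A B : Multiset 𝕜) :
    sm a p A = sm a p B ↔ pw (orderOf a) A = pw (orderOf a) B := by
  classical
  by_cases h1 : a = 1
  · subst h1
    have h2 : ∀ M : Multiset 𝕜, sm 1 p M = p • M := by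
      intro M
      unfold sm
      have : ∀ k ∈ range p, sc (((1 : 𝕜ˣ) ^ k)⁻¹) M = M := fun k _ => by
        rw [one_pow, inv_one, sc_one]
      rw [Finset.sum_congr rfl this, Finset.sum_const, Finset.card_range]
    rw [h2, h2, orderOf_one, pw_one, pw_one]
    exact ⟨fun h => nsmul_inj' hp.ne_zero h, fun h => by rw [h]⟩
  · have hord : orderOf a = p := by
      haveI := Fact.mk hp
      exact orderOf_eq_prime ha h1
    rw [hord]
    have hprim : IsPrimitiveRoot (a : 𝕜) p := by
      have h2 : IsPrimitiveRoot a p := by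
        rw [← hord]
        exact IsPrimitiveRoot.orderOf a
      exact IsPrimitiveRoot.coe_units_iff.2 h2
    constructor
    · intro h
      have h2 : ∀ M : Multiset 𝕜, pw p (sm a p M) = p • pw p M := by
        intro M
        unfold sm
        have h3 : ∀ s : Finset ℕ, pw p (∑ k ∈ s, sc ((a ^ k)⁻¹) M) = s.card • pw p M := by
          intro s
          induction s using Finset.induction_on with
          | empty =>
            rw [Finset.sum_empty, Finset.card_empty, zero_smul]
            rfl
          | insert i s hi ih =>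
            rw [Finset.sum_insert hi, pw_add, ih, pw_sc, Finset.card_insert_of_notMem hi,
              add_smul, one_smul, add_comm]
            have h4 : ((a ^ i)⁻¹) ^ p = 1 := by
              rw [inv_pow, ← pow_mul, mul_comm, pow_mul, ha, one_pow, inv_one]
            rw [h4, sc_one]
        rw [h3, Finset.card_range]
      have h3 := congrArg (pw p) h
      rw [h2, h2] at h3
      exact nsmul_inj' hp.ne_zero h3
    · intro h
      have hr : ∀ b : 𝕜, ∃ r : 𝕜, r ^ p = b := fun b => IsAlgClosed.exists_pow_nat_eq b hp.pos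
      choose r hr using hr
      have key : ∀ M : Multiset 𝕜, sm a p M = (pw p M).bind fun b => sm a p {r b} := by
        intro M
        induction M using Multiset.induction_on with
        | empty =>
          unfold sm
          exact Finset.sum_eq_zero fun k _ => rfl
        | cons x M ih =>
          have h2 : pw p (x ::ₘ M) = x ^ p ::ₘ pw p M := Multiset.map_cons _ _ _
          have h3 : sm a p {r (x ^ p)} = sm a p {x} := by
            by_cases hx : x = 0
            · have h4 : r (x ^ p) = x := by
                rw [hx]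
                have h5 := hr ((0 : 𝕜) ^ p)
                rw [zero_pow hp.ne_zero] at h5 ⊢
                exact eq_zero_of_pow_eq_zero h5
              rw [h4]
            · have h4 : (r (x ^ p) / x) ^ p = 1 := by
                rw [div_pow, hr, div_self (pow_ne_zero _ hx)]
              haveI : NeZero p := ⟨hp.ne_zero⟩
              obtain ⟨j, -, hj⟩ := hprim.eq_pow_of_pow_eq_one h4
              have h5 : ({r (x ^ p)} : Multiset 𝕜) = sc (a ^ j) {x} := by
                unfold sc
                rw [Multiset.map_singleton, Units.val_pow_eq_pow_val, hj, div_mul_cancel₀ _ hx]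
              rw [h5, sm_sc_pow ha]
          rw [h2, Multiset.cons_bind, ← ih, h3, ← sm_add, Multiset.singleton_add]
      rw [key A, key B, h]

/-- comparison of options -/
theorem opt_iff {a : 𝕜ˣ} {p : ℕ} (hp : p.Prime) (ha : a ^ p = 1) (A B : Option (Multiset 𝕜)) :
    A.map (sm a p) = B.map (sm a p) ↔ A.map (pw (orderOf a)) = B.map (pw (orderOf a)) := by
  cases A with
  | none =>
    cases B with
    | none => simp
    | some B => simp
  | some A =>
    cases B with
    | none => simp
    | some B =>
      rw [Option.map_some, Option.map_some, Option.map_some, Option.map_some, Option.some_inj,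
        Option.some_inj]
      exact sm_iff hp ha A B

/-- the sum of multiples and the sum over orbits -/
theorem count_sm [DecidableEq 𝕜] (a : 𝕜ˣ) (p : ℕ) (M : Multiset 𝕜) (x : 𝕜) :
    (sm a p M).count x = nm (Units.mulLeft a) p (fun y => M.count y) x := by
  unfold sm nm
  rw [Multiset.count_sum']
  refine Finset.sum_congr rfl fun k _ => ?_
  rw [count_sc, inv_inv]
  congr 1
  have h1 : ∀ k : ℕ, (Units.mulLeft a ^ k) x = ((a ^ k : 𝕜ˣ) : 𝕜) * x := by
    intro k
    induction k with
    | zero => simp
    | succ k ih =>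
      rw [pow_succ', Equiv.Perm.mul_apply, ih, Units.mulLeft_apply, pow_succ', Units.val_mul,
        mul_assoc]
  rw [h1]

theorem mass_count [DecidableEq 𝕜] (M : Multiset 𝕜) :
    mass (fun x => M.count x) = Multiset.card M := by
  unfold mass
  rw [tsum_eq_sum (s := M.toFinset)]
  · rw [← Nat.cast_sum, Multiset.toFinset_sum_count_eq]
  · intro x hx
    rw [Multiset.mem_toFinset] at hx
    change ((M.count x : ℕ) : ℝ≥0∞) = 0
    rw [Multiset.count_eq_zero_of_notMem hx, Nat.cast_zero]

/-- multisets of `n` numbers are determined by their powers in `n + 1` directions -/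
theorem local_unique {ι : Type} (J : Finset ι) (a : ι → 𝕜ˣ) (p : ι → ℕ)
    (hp : ∀ i ∈ J, (p i).Prime) (hinj : ∀ i ∈ J, ∀ j ∈ J, p i = p j → i = j)
    (ha : ∀ i ∈ J, a i ^ p i = 1) {n : ℕ} (hJ : n + 1 ≤ J.card) {A B : Multiset 𝕜}
    (hA : Multiset.card A ≤ n) (hB : Multiset.card B ≤ n)
    (h : ∀ i ∈ J, pw (orderOf (a i)) A = pw (orderOf (a i)) B) : A = B := by
  classical
  have hF : Fam (ι := {i // i ∈ J}) (fun i => Units.mulLeft (a i)) (fun i => p i) := by
    refine ⟨?_, ?_, ?_, ?_⟩
    · intro i j
      ext x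
      rw [Equiv.Perm.mul_apply, Equiv.Perm.mul_apply]
      simp only [Units.mulLeft_apply]
      rw [← mul_assoc, ← mul_assoc, mul_comm (a i : 𝕜)]
    · intro i
      ext x
      have h1 : ∀ k : ℕ, (Units.mulLeft (a i) ^ k) x = ((a i ^ k : 𝕜ˣ) : 𝕜) * x := by
        intro k
        induction k with
        | zero => simp
        | succ k ih =>
          rw [pow_succ', Equiv.Perm.mul_apply, ih, Units.mulLeft_apply, pow_succ', Units.val_mul,
            mul_assoc]
      rw [h1, ha i i.2, Units.val_one, one_mul, Equiv.Perm.one_apply]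
    · intro i
      exact (hp i i.2).pos
    · intro i j hij
      rw [Nat.coprime_primes (hp i i.2) (hp j j.2)]
      intro e
      exact hij (Subtype.ext (hinj i i.2 j j.2 e))
  have h1 : (fun x => A.count x) = fun x => B.count x := by
    refine hF.unique' (n := n) (J := Finset.univ) ?_ ?_ ?_ ?_
    · rw [Finset.card_univ, Fintype.card_coe]
      exact hJ
    · rw [mass_count]
      exact_mod_cast hA
    · rw [mass_count]
      exact_mod_cast hB
    · intro i _
      funext x
      rw [← count_sm, ← count_sm, (sm_iff (hp i i.2) (ha i i.2) A B).2 (h i i.2)]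
  ext x
  exact congrFun h1 x

end Pool.Agent.Q227.AK
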