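import Pool.Agent.Q227.AK.A2

/-!
# Isobaric representations: twists, norms and base change
-/

set_option autoImplicit false

namespace Pool.Agent.Q227.AK

open Pool.Agent.Q227.AR (nm nm_add nm_zero nm_apply_self nm_apply_pow nm_apply_inv nm_comp nm_comm nm_indicator nm_sub nm_cast le_nm Fam gp mem_gp tv mass mass_add mass_mono dl dl_self mass_dl dl_perm nm_dl mass_nm mass_pos sub_dl pair ob mem_ob ob_eq mass_split)

open NumberField IsDedekindDomain Finset
open Pool.Agent.W401.Cheb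

open scoped ENNReal

namespace AutRep

variable {K : Type} [Field K] [NumberField K] {𝕜 : Type} [Field 𝕜] [IsAlgClosed 𝕜] {T : AutRep K 𝕜}

theorem sat_eq_some {F : T.X →₀ ℕ} {v : HeightOneSpectrum (𝓞 K)} {M : Multiset 𝕜} :
    T.sat F v = some M ↔ (∀ x ∈ F.support, T.par x v ≠ none) ∧
      (F.sum fun x a => a • (T.par x v).getD 0) = M := by
  classical
  unfold sat
  split_ifs with h
  · rw [Option.some_inj]
    exact ⟨fun h' => ⟨h, h'⟩, fun h' => h'.2⟩
  · exact ⟨fun h' => by simp at h', fun h' => absurd h'.1 h⟩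

theorem sat_eq_none {F : T.X →₀ ℕ} {v : HeightOneSpectrum (𝓞 K)} :
    T.sat F v = none ↔ ∃ x ∈ F.support, T.par x v = none := by
  classical
  unfold sat
  split_ifs with h
  · simp only [reduceCtorEq, false_iff]
    rintro ⟨x, hx, hx'⟩
    exact h x hx hx'
  · simp only [true_iff]
    push Not at h
    exact h

theorem sat_zero (v : HeightOneSpectrum (𝓞 K)) : T.sat 0 v = some 0 :=
  sat_eq_some.2 ⟨fun x hx => absurd hx (by simp), Finsupp.sum_zero_index⟩

/-- the parameters of an isobaric sum -/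
theorem sat_add (F F' : T.X →₀ ℕ) (v : HeightOneSpectrum (𝓞 K)) :
    T.sat (F + F') v = Option.map₂ (· + ·) (T.sat F v) (T.sat F' v) := by
  classical
  have hsupp : (F + F').support = F.support ∪ F'.support := by
    ext x
    rw [Finset.mem_union, Finsupp.mem_support_iff, Finsupp.mem_support_iff,
      Finsupp.mem_support_iff, Finsupp.add_apply]
    omega
  cases h : T.sat F v with
  | none =>
    rw [Option.map₂_none_left, sat_eq_none]
    obtain ⟨x, hx, hx'⟩ := sat_eq_none.1 h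
    exact ⟨x, by rw [hsupp]; exact Finset.mem_union_left _ hx, hx'⟩
  | some M =>
    cases h' : T.sat F' v with
    | none =>
      rw [Option.map₂_none_right, sat_eq_none]
      obtain ⟨x, hx, hx'⟩ := sat_eq_none.1 h'
      exact ⟨x, by rw [hsupp]; exact Finset.mem_union_right _ hx, hx'⟩
    | some M' =>
      obtain ⟨h1, h2⟩ := sat_eq_some.1 h
      obtain ⟨h3, h4⟩ := sat_eq_some.1 h'
      rw [Option.map₂_some_some]
      refine sat_eq_some.2 ⟨fun x hx => ?_, ?_⟩
      · rw [hsupp, Finset.mem_union] at hx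
        exact hx.elim (h1 x) (h3 x)
      · rw [← h2, ← h4]
        exact Finsupp.sum_add_index' (fun _ => zero_smul ℕ _) (fun _ _ _ => add_smul _ _ _)

theorem sat_single (x : T.X) {n : ℕ} (hn : n ≠ 0) (v : HeightOneSpectrum (𝓞 K)) :
    T.sat (Finsupp.single x n) v = (T.par x v).map (n • ·) := by
  cases h : T.par x v with
  | none =>
    rw [Option.map_none, sat_eq_none]
    exact ⟨x, by rw [Finsupp.support_single_ne_zero _ hn]; exact Finset.mem_singleton_self _, h⟩
  | some M =>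
    rw [Option.map_some]
    refine sat_eq_some.2 ⟨fun y hy => ?_, ?_⟩
    · rw [Finsupp.support_single_ne_zero _ hn, Finset.mem_singleton] at hy
      rw [hy, h]
      simp
    · have h1 : (Finsupp.single x n).sum (fun x a => a • (T.par x v).getD 0)
          = n • (T.par x v).getD 0 := Finsupp.sum_single_index (zero_smul ℕ _)
      rw [h1, h, Option.getD_some]

theorem sat_card (hT : T.Known) {F : T.X →₀ ℕ} {v : HeightOneSpectrum (𝓞 K)} {M : Multiset 𝕜}
    (h : T.sat F v = some M) : Multiset.card M = T.rk F := by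
  obtain ⟨h1, h2⟩ := sat_eq_some.1 h
  rw [← h2]
  unfold rk
  rw [Finsupp.sum, Multiset.card_sum, Finsupp.sum]
  refine Finset.sum_congr rfl fun x hx => ?_
  obtain ⟨M, hM⟩ := Option.ne_none_iff_exists'.1 (h1 x hx)
  rw [Multiset.card_nsmul, hM, Option.getD_some, (hT.card_par x v M hM).1]

theorem sat_ne_zero (hT : T.Known) {F : T.X →₀ ℕ} {v : HeightOneSpectrum (𝓞 K)} {M : Multiset 𝕜}
    (h : T.sat F v = some M) : (0 : 𝕜) ∉ M := by
  obtain ⟨h1, h2⟩ := sat_eq_some.1 h
  rw [← h2, Finsupp.sum, Multiset.mem_sum]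
  rintro ⟨x, hx, h0⟩
  obtain ⟨M, hM⟩ := Option.ne_none_iff_exists'.1 (h1 x hx)
  rw [hM, Option.getD_some] at h0
  exact (hT.card_par x v M hM).2 (Multiset.mem_of_mem_nsmul h0)

theorem tw_one (hT : T.Known) (x : T.X) : T.tw 1 x = x := by
  have h1 : Finsupp.single (T.tw 1 x) 1 = Finsupp.single x 1 := by
    apply hT.mult_one
    refine Set.finite_empty.subset ?_
    intro v hv
    exfalso
    apply hv
    rw [sat_single _ one_ne_zero, sat_single _ one_ne_zero, hT.tw_par 1 open_one v 1 (val_one v)]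
    congr 1
    cases T.par x v with
    | none => rfl
    | some M => rw [Option.map_some, sc_one]
  exact Finsupp.single_left_injective one_ne_zero h1

/-- twisting is a permutation -/
noncomputable def pm (hT : T.Known) {χ : GK K →* 𝕜ˣ} (hχ : IsOpen (χ.ker : Set (GK K))) : Equiv.Perm T.X where
  toFun := T.tw χ
  invFun := T.tw χ⁻¹
  left_inv x := by
    have h1 : χ⁻¹ * χ = 1 := inv_mul_cancel χ
    rw [← hT.tw_mul _ _ (open_inv hχ) hχ, h1, tw_one hT]
  right_inv x := by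
    have h1 : χ * χ⁻¹ = 1 := mul_inv_cancel χ
    rw [← hT.tw_mul _ _ hχ (open_inv hχ), h1, tw_one hT]

theorem pm_pow (hT : T.Known) {χ : GK K →* 𝕜ˣ} (hχ : IsOpen (χ.ker : Set (GK K))) (k : ℕ)
    (x : T.X) : (pm hT hχ ^ k) x = T.tw (χ ^ k) x := by
  induction k with
  | zero =>
    have h0 : χ ^ 0 = 1 := pow_zero χ
    rw [h0, tw_one hT]
    rfl
  | succ k ih =>
    have h0 : χ ^ (k + 1) = χ * χ ^ k := pow_succ' χ k
    rw [pow_succ', Equiv.Perm.mul_apply, ih, h0, hT.tw_mul _ _ hχ (open_pow hχ k)]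
    rfl

/-- the twist of an isobaric representation -/
noncomputable def twF (χ : GK K →* 𝕜ˣ) (F : T.X →₀ ℕ) : T.X →₀ ℕ := F.mapDomain (T.tw χ)

theorem twF_apply (hT : T.Known) {χ : GK K →* 𝕜ˣ} (hχ : IsOpen (χ.ker : Set (GK K)))
    (F : T.X →₀ ℕ) (x : T.X) : twF χ⁻¹ F x = F (T.tw χ x) := by
  have h1 : x = T.tw χ⁻¹ (T.tw χ x) := ((pm hT hχ).left_inv x).symm
  conv_lhs => rw [h1]
  refine Finsupp.mapDomain_apply ?_ F _
  intro a b h
  have h2 : T.tw χ (T.tw χ⁻¹ a) = T.tw χ (T.tw χ⁻¹ b) := by rw [h]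
  have h3 : ∀ c, T.tw χ (T.tw χ⁻¹ c) = c := (pm hT hχ).right_inv
  rwa [h3, h3] at h2

/-- the parameters of a twist -/
theorem sat_twF (hT : T.Known) {χ : GK K →* 𝕜ˣ} (hχ : IsOpen (χ.ker : Set (GK K)))
    {v : HeightOneSpectrum (𝓞 K)} {a : 𝕜ˣ} (h : Val v χ a) (F : T.X →₀ ℕ) :
    T.sat (twF χ F) v = (T.sat F v).map (sc a) := by
  induction F using Finsupp.induction_linear with
  | zero =>
    unfold twF
    rw [Finsupp.mapDomain_zero, sat_zero, Option.map_some, sc_zero]
  | add F F' hF hF' =>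
    unfold twF at hF hF' ⊢
    rw [Finsupp.mapDomain_add, sat_add, hF, hF', sat_add]
    cases T.sat F v with
    | none => simp
    | some M =>
      cases T.sat F' v with
      | none => simp
      | some M' => simp [sc_add]
  | single x n =>
    unfold twF
    rw [Finsupp.mapDomain_single]
    by_cases hn : n = 0
    · rw [hn, Finsupp.single_zero, Finsupp.single_zero, sat_zero, Option.map_some, sc_zero]
    · rw [sat_single _ hn, sat_single _ hn, hT.tw_par χ hχ v a h]
      cases T.par x v with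
      | none => simp
      | some M => simp [sc_nsmul]

/-- the isobaric sum of the twists by the powers of `χ` -/
noncomputable def NF (χ : GK K →* 𝕜ˣ) (F : T.X →₀ ℕ) : T.X →₀ ℕ :=
  ∑ k ∈ range (orderOf χ), twF ((χ ^ k)⁻¹) F

theorem NF_coe (hT : T.Known) {χ : GK K →* 𝕜ˣ} (hχ : IsOpen (χ.ker : Set (GK K)))
    (F : T.X →₀ ℕ) : ⇑(NF χ F) = nm (pm hT hχ) (orderOf χ) F := by
  funext x
  unfold NF nm
  rw [Finsupp.finsetSum_apply]
  exact Finset.sum_congr rfl fun k _ => by rw [twF_apply hT (open_pow hχ k), pm_pow]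

theorem sat_NF (hT : T.Known) {χ : GK K →* 𝕜ˣ} (hχ : IsOpen (χ.ker : Set (GK K)))
    (hp : 0 < orderOf χ) {v : HeightOneSpectrum (𝓞 K)} {a : 𝕜ˣ} (h : Val v χ a) (F : T.X →₀ ℕ) :
    T.sat (NF χ F) v = (T.sat F v).map (sm a (orderOf χ)) := by
  have key : ∀ m : ℕ, T.sat (∑ k ∈ range (m + 1), twF ((χ ^ k)⁻¹) F) v
      = (T.sat F v).map (sm a (m + 1)) := by
    intro m
    have h1 : ∀ k, T.sat (twF ((χ ^ k)⁻¹) F) v = (T.sat F v).map (sc ((a ^ k)⁻¹)) := fun k =>
      sat_twF hT (open_inv (open_pow hχ k)) (h.pow k).inv F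
    induction m with
    | zero =>
      rw [Finset.sum_range_one, h1]
      congr 1
      funext M
      unfold sm
      rw [Finset.sum_range_one]
    | succ m ih =>
      rw [Finset.sum_range_succ, sat_add, ih, h1]
      cases T.sat F v with
      | none => simp
      | some M =>
        rw [Option.map_some, Option.map_some, Option.map_some, Option.map₂_some_some]
        unfold sm
        rw [Finset.sum_range_succ (fun k => sc ((a ^ k)⁻¹) M) (m + 1)]
  obtain ⟨m, hm⟩ : ∃ m, orderOf χ = m + 1 := ⟨orderOf χ - 1, by omega⟩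
  unfold NF
  rw [hm]
  exact key m

/-- equality of base changes -/
theorem bc_eq_iff (hT : T.Known) {χ : GK K →* 𝕜ˣ} (hχ : IsCyc χ) (F F' : T.X →₀ ℕ) :
    T.bc χ F = T.bc χ F' ↔ NF χ F = NF χ F' := by
  constructor
  · intro h
    apply hT.mult_one
    refine (ram_finite hχ.1).subset ?_
    rintro v hv ⟨a, ha⟩
    apply hv
    rw [sat_NF hT hχ.1 hχ.2.pos ha, sat_NF hT hχ.1 hχ.2.pos ha]
    refine (opt_iff hχ.2 ha.pow_orderOf _ _).2 ?_
    rw [← hT.bc_par χ hχ v a ha, ← hT.bc_par χ hχ v a ha, h]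
  · intro h
    apply hT.mult_oneE χ hχ
    refine Set.finite_empty.subset ?_
    rintro v ⟨⟨a, ha⟩, h2⟩
    exfalso
    apply h2
    rw [hT.bc_par χ hχ v a ha, hT.bc_par χ hχ v a ha]
    refine (opt_iff hχ.2 ha.pow_orderOf _ _).1 ?_
    rw [← sat_NF hT hχ.1 hχ.2.pos ha, ← sat_NF hT hχ.1 hχ.2.pos ha, h]

/-- the character `χ` is unramified at `v`, and at the places above `v` the representation `P` over
`E` has the parameters prescribed by `D`: those of the lifting -/
def Loc (T : AutRep K 𝕜) (χ : GK K →* 𝕜ˣ) (P : T.Y χ) (D : Multiset 𝕜)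
    (v : HeightOneSpectrum (𝓞 K)) : Prop :=
  ∃ a, Val v χ a ∧ T.parE χ P v = some (pw (orderOf a) D)

theorem Loc.ex (hT : T.Known) {χ : GK K →* 𝕜ˣ} (hχ : IsCyc χ) {F : T.X →₀ ℕ} {D : Multiset 𝕜}
    {v : HeightOneSpectrum (𝓞 K)} (h : Loc T χ (T.bc χ F) D v) :
    ∃ a M, Val v χ a ∧ T.sat F v = some M ∧ pw (orderOf a) M = pw (orderOf a) D := by
  obtain ⟨a, ha, h1⟩ := h
  rw [hT.bc_par χ hχ v a ha] at h1
  obtain ⟨M, hM, hMD⟩ := Option.map_eq_some_iff.1 h1
  exact ⟨a, M, ha, hM, hMD⟩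

/-- compatibility of two base changes -/
theorem compat (hT : T.Known) {χ χ' : GK K →* 𝕜ˣ} (hχ : IsCyc χ) (hχ' : IsCyc χ')
    {D : HeightOneSpectrum (𝓞 K) → Multiset 𝕜} {F F' : T.X →₀ ℕ}
    (hF : {v | ¬ Loc T χ (T.bc χ F) (D v) v}.Finite)
    (hF' : {v | ¬ Loc T χ' (T.bc χ' F') (D v) v}.Finite) :
    NF χ' (NF χ F) = NF χ (NF χ' F') := by
  apply hT.mult_one
  refine (hF.union hF').subset ?_
  intro v hv
  by_contra hcon
  rw [Set.mem_union, not_or, Set.mem_setOf_eq, Set.mem_setOf_eq, not_not, not_not] at hcon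
  obtain ⟨a, M, ha, hM, hMD⟩ := hcon.1.ex hT hχ
  obtain ⟨b, N, hb, hN, hND⟩ := hcon.2.ex hT hχ'
  apply hv
  rw [sat_NF hT hχ'.1 hχ'.2.pos hb, sat_NF hT hχ.1 hχ.2.pos ha, hM, Option.map_some,
    Option.map_some, sat_NF hT hχ.1 hχ.2.pos ha, sat_NF hT hχ'.1 hχ'.2.pos hb, hN,
    Option.map_some, Option.map_some, (sm_iff hχ.2 ha.pow_orderOf _ _).2 hMD,
    (sm_iff hχ'.2 hb.pow_orderOf _ _).2 hND, sm_comm]

/-- the number of constituents is at most the rank -/
theorem mass_le (hT : T.Known) (F : T.X →₀ ℕ) : mass (⇑F) ≤ T.rk F := by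
  unfold mass rk
  rw [tsum_eq_sum (s := F.support)]
  · rw [Finsupp.sum, ← Nat.cast_sum]
    have : ∑ x ∈ F.support, F x ≤ ∑ x ∈ F.support, F x * T.deg x :=
      Finset.sum_le_sum fun x _ => Nat.le_mul_of_pos_right _ (hT.deg_pos x)
    exact_mod_cast this
  · intro x hx
    rw [Finsupp.notMem_support_iff.1 hx, Nat.cast_zero]

end AutRep

end Pool.Agent.Q227.AK
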