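import Pool.Agent.Q227.AK.A3

/-!
# Descent from `n + 2` cyclic extensions of different prime degrees
-/

set_option autoImplicit false

namespace Pool.Agent.Q227.AK

open Pool.Agent.Q227.AR (nm nm_add nm_zero nm_apply_self nm_apply_pow nm_apply_inv nm_comp nm_comm nm_indicator nm_sub nm_cast le_nm Fam gp mem_gp tv mass mass_add mass_mono dl dl_self mass_dl dl_perm nm_dl mass_nm mass_pos sub_dl pair ob mem_ob ob_eq mass_split)

open NumberField IsDedekindDomain Finset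
open Pool.Agent.W401.Cheb

open scoped ENNReal

namespace AutRep

variable {K : Type} [Field K] [NumberField K] {𝕜 : Type} [Field 𝕜] [IsAlgClosed 𝕜] {T : AutRep K 𝕜}

/-- the twists by characters of different prime orders -/
theorem fam (hT : T.Known) {I : Finset (GK K →* 𝕜ˣ)} (hI : ∀ χ ∈ I, IsCyc χ)
    (hinj : Set.InjOn orderOf (I : Set (GK K →* 𝕜ˣ))) :
    Fam (ι := {χ // χ ∈ I}) (fun χ => pm hT (hI χ χ.2).1) (fun χ => orderOf χ.1) := by
  refine ⟨?_, ?_, ?_, ?_⟩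
  · intro χ χ'
    ext x
    rw [Equiv.Perm.mul_apply, Equiv.Perm.mul_apply]
    change T.tw χ.1 (T.tw χ'.1 x) = T.tw χ'.1 (T.tw χ.1 x)
    rw [← hT.tw_mul _ _ (hI χ χ.2).1 (hI χ' χ'.2).1, ← hT.tw_mul _ _ (hI χ' χ'.2).1 (hI χ χ.2).1]
    congr 1
    exact mul_comm χ.1 χ'.1
  · intro χ
    ext x
    have h1 : χ.1 ^ orderOf χ.1 = 1 := pow_orderOf_eq_one _
    rw [pm_pow hT (hI χ χ.2).1, h1, tw_one hT]
    rfl
  · intro χ
    exact (hI χ χ.2).2.pos
  · intro χ χ' hne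
    rw [Nat.coprime_primes (hI χ χ.2).2 (hI χ' χ'.2).2]
    intro e
    exact hne (Subtype.ext (hinj χ.2 χ'.2 e))

/-- the parameters at a place with enough information -/
theorem sat_of_loc (hT : T.Known) {I : Finset (GK K →* 𝕜ˣ)} (hI : ∀ χ ∈ I, IsCyc χ)
    (hinj : Set.InjOn orderOf (I : Set (GK K →* 𝕜ˣ))) {n : ℕ} (hIn : n + 1 ≤ I.card)
    {F : T.X →₀ ℕ} (hF : T.rk F = n) {D : Multiset 𝕜} {v : HeightOneSpectrum (𝓞 K)}
    (h : ∀ χ ∈ I, Loc T χ (T.bc χ F) D v) : T.sat F v = some D := by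
  obtain ⟨χ₀, hχ₀⟩ : I.Nonempty := Finset.card_pos.1 (by omega)
  obtain ⟨a₀, M, ha₀, hM, hMD⟩ := (h χ₀ hχ₀).ex hT (hI χ₀ hχ₀)
  have hMn : Multiset.card M = n := by rw [sat_card hT hM, hF]
  have hDn : Multiset.card D = n := by
    rw [← card_pw (orderOf a₀), ← hMD, card_pw, hMn]
  have h1 : ∀ χ : GK K →* 𝕜ˣ, ∃ a : 𝕜ˣ, χ ∈ I → Val v χ a ∧ pw (orderOf a) M = pw (orderOf a) D := by
    intro χ
    by_cases hχ : χ ∈ I
    · obtain ⟨a, M', ha, hM', hMD'⟩ := (h χ hχ).ex hT (hI χ hχ)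
      rw [hM, Option.some_inj] at hM'
      subst hM'
      exact ⟨a, fun _ => ⟨ha, hMD'⟩⟩
    · exact ⟨1, fun h' => absurd h' hχ⟩
  choose a ha using h1
  rw [hM, Option.some_inj]
  exact local_unique I a orderOf (fun χ hχ => (hI χ hχ).2) (fun χ hχ χ' hχ' e => hinj hχ hχ' e)
    (fun χ hχ => (ha χ hχ).1.pow_orderOf) hIn hMn.le hDn.le fun χ hχ => (ha χ hχ).2

end AutRep

end Pool.Agent.Q227.AK
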