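import Pool.Agent.Q227.AK.A4

/-!
# The number of cyclic extensions: lower bound
-/

set_option autoImplicit false

namespace Pool.Agent.Q227.AK

open Pool.Agent.Q227.AR (nm nm_add nm_zero nm_apply_self nm_apply_pow nm_apply_inv nm_comp nm_comm nm_indicator nm_sub nm_cast le_nm Fam gp mem_gp tv mass mass_add mass_mono dl dl_self mass_dl dl_perm nm_dl mass_nm mass_pos sub_dl pair ob mem_ob ob_eq mass_split)

open NumberField IsDedekindDomain Finset
open Pool.Agent.W401.Cheb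

/-- odd powers of elements of order two -/
theorem odd_pow {A : Type} [CommGroup A] {ψ : A} (h : orderOf ψ = 2) {m : ℕ} (hm : ¬ 2 ∣ m) :
    ψ ^ m = ψ := by
  have h1 : m % 2 = 1 := by omega
  rw [← pow_mod_orderOf, h, h1, pow_one]

theorem pow_two_cases {A : Type} [CommGroup A] {ψ : A} (h : orderOf ψ = 2) (m : ℕ) :
    ψ ^ m = 1 ∨ ψ ^ m = ψ := by
  by_cases hm : 2 ∣ m
  · left
    exact orderOf_dvd_iff_pow_eq_one.1 (h ▸ hm)
  · right
    exact odd_pow h hm

/-- characters of different prime orders -/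
theorem excl {A : Type} [CommGroup A] {I : Set A} (hp : ∀ χ ∈ I, (orderOf χ).Prime)
    (hinj : Set.InjOn orderOf I) {ψ ω i j : A} (hψ : ψ ∈ I) (hj : j ∈ I) (hi : i ∈ I)
    (hjψ : j ≠ ψ) (hiψ : i ≠ ψ) (hij : i ≠ j) (h2 : orderOf ψ = 2) (hω : orderOf ω = 2)
    (hωψ : ω ≠ ψ) {k m m' : ℕ}
    (h1 : j ^ m * (ψ ^ k * j) = ω ∨ j ^ m * (ψ ^ k * j) = ω * ψ ∨
      ∃ χ ∈ I, χ ≠ j ∧ j ^ m * (ψ ^ k * j) = χ)
    (h3 : i ^ m' * (ψ ^ k * j) = ω ∨ i ^ m' * (ψ ^ k * j) = ω * ψ ∨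
      ∃ χ ∈ I, χ ≠ i ∧ i ^ m' * (ψ ^ k * j) = χ) : False := by
  have hodd : ∀ χ ∈ I, χ ≠ ψ → ¬ 2 ∣ orderOf χ := by
    intro χ hχ hne h
    have h4 := (Nat.prime_dvd_prime_iff_eq Nat.prime_two (hp χ hχ)).1 h
    exact hne (hinj hχ hψ (by rw [h2, ← h4]))
  have hprime : ∀ χ ∈ I, ∀ χ' ∈ I, χ ≠ χ' → ¬ orderOf χ ∣ orderOf χ' := by
    intro χ hχ χ' hχ' hne h
    exact hne (hinj hχ hχ' ((Nat.prime_dvd_prime_iff_eq (hp χ hχ) (hp χ' hχ')).1 h))
  have hψ1 : ψ ≠ 1 := by
    rintro rfl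
    rw [orderOf_one] at h2
    omega
  have hω1 : ω ≠ 1 := by
    rintro rfl
    rw [orderOf_one] at hω
    omega
  have hωψ2 : ∀ a, ω ≠ ψ ^ a := by
    intro a ha
    rcases pow_two_cases h2 a with h4 | h4
    · exact hω1 (ha.trans h4)
    · exact hωψ (ha.trans h4)
  -- powers of `j`
  have hjj : ∀ a, (j ^ a) ^ orderOf j = 1 := fun a => by
    rw [← pow_mul, mul_comm, pow_mul, pow_orderOf_eq_one, one_pow]
  have hii : ∀ a, (i ^ a) ^ orderOf i = 1 := fun a => by
    rw [← pow_mul, mul_comm, pow_mul, pow_orderOf_eq_one, one_pow]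
  have hlam : ψ ^ k = ψ := by
    have h4 : (j ^ m * (ψ ^ k * j)) ^ orderOf j = (ψ ^ k) ^ orderOf j := by
      rw [mul_pow, mul_pow, hjj, one_mul, pow_orderOf_eq_one, mul_one]
    have hoj : ∀ {θ : A}, orderOf θ = 2 → θ ^ orderOf j = θ := fun hθ => odd_pow hθ (hodd j hj hjψ)
    rcases h1 with h1 | h1 | ⟨χ, hχ, hχj, h1⟩
    · rw [h1, hoj hω, ← pow_mul] at h4
      exact absurd h4 (hωψ2 _)
    · rw [h1, mul_pow, hoj hω, hoj h2, ← pow_mul] at h4
      exfalso
      rcases pow_two_cases h2 (k * orderOf j) with h5 | h5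
      · rw [h5] at h4
        apply hωψ
        have h6 : ψ * ψ = 1 := by rw [← pow_two, ← h2, pow_orderOf_eq_one]
        calc ω = ω * ψ * ψ := by rw [mul_assoc, h6, mul_one]
          _ = ψ := by rw [h4, one_mul]
      · rw [h5] at h4
        apply hω1
        exact mul_right_cancel (h4.trans (one_mul ψ).symm)
    · by_cases hχψ : χ = ψ
      · rw [h1, hχψ, hoj h2] at h4
        rcases pow_two_cases h2 k with h5 | h5
        · rw [h5, one_pow] at h4
          exact absurd h4 hψ1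
        · exact h5
      · exfalso
        rw [h1] at h4
        have e : ∀ b : ℕ, (ψ ^ b) ^ 2 = 1 := fun b => by
          rw [← pow_mul, mul_comm, pow_mul, ← h2, pow_orderOf_eq_one, one_pow]
        have h5 : χ ^ (orderOf j * 2) = 1 := by
          rw [pow_mul, h4]
          exact (congrArg (· ^ 2) (pow_mul ψ k (orderOf j)).symm).trans (e _)
        rcases (hp χ hχ).dvd_mul.1 (orderOf_dvd_of_pow_eq_one h5) with h6 | h6
        · exact hprime χ hχ j hj hχj h6
        · rw [← h2] at h6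
          exact hprime χ hχ ψ hψ hχψ h6
  rw [hlam] at h3
  have hoo : ∀ {θ : A}, orderOf θ = 2 → θ ^ (orderOf i * orderOf j) = θ := by
    intro θ hθ
    apply odd_pow hθ
    intro h
    rcases Nat.prime_two.dvd_mul.1 h with h | h
    · exact hodd i hi hiψ h
    · exact hodd j hj hjψ h
  have h4 : (i ^ m' * (ψ * j)) ^ (orderOf i * orderOf j) = ψ := by
    have h5 : (i ^ m') ^ (orderOf i * orderOf j) = 1 := by rw [pow_mul, hii, one_pow]
    have h6 : j ^ (orderOf i * orderOf j) = 1 := by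
      rw [mul_comm, pow_mul, pow_orderOf_eq_one, one_pow]
    rw [mul_pow, mul_pow, h5, h6, one_mul, mul_one, hoo h2]
  rcases h3 with h3 | h3 | ⟨χ, hχ, hχi, h3⟩
  · rw [h3, hoo hω] at h4
    exact hωψ h4
  · rw [h3, mul_pow, hoo hω, hoo h2] at h4
    exact hω1 (mul_right_cancel (h4.trans (one_mul ψ).symm))
  · by_cases hχψ : χ = ψ
    · rw [hχψ] at h3
      have h5 : i ^ m' * j = 1 := by
        have h6 : i ^ m' * j * ψ = 1 * ψ := by rw [mul_assoc, mul_comm j, h3, one_mul]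
        exact mul_right_cancel h6
      have h6 : j ^ orderOf i = 1 := by
        have h7 : (i ^ m' * j) ^ orderOf i = 1 := by rw [h5, one_pow]
        rwa [mul_pow, hii, one_mul] at h7
      exact hprime j hj i hi (fun e => hij e.symm) (orderOf_dvd_of_pow_eq_one h6)
    · rw [h3] at h4
      have h5 : ψ ^ orderOf χ = 1 := by
        rw [← h4, ← pow_mul, mul_comm, pow_mul, pow_orderOf_eq_one, one_pow]
      rw [odd_pow h2 (hodd χ hχ hχψ)] at h5
      exact hψ1 h5

namespace AutRep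

variable {K : Type} [Field K] [NumberField K] {𝕜 : Type} [Field 𝕜] [IsAlgClosed 𝕜] {T : AutRep K 𝕜}

/-- twists of the trivial representation are distinct -/
theorem tw_triv_inj (hT : T.Known) {one : T.X} (hone : ∀ v, T.par one v = some {1})
    {χ χ' : GK K →* 𝕜ˣ} (hχ : IsOpen (χ.ker : Set (GK K))) (hχ' : IsOpen (χ'.ker : Set (GK K)))
    (h : T.tw χ one = T.tw χ' one) : χ = χ' := by
  by_contra hne
  have h1 : ∃ g, χ g ≠ χ' g := by
    by_contra hall
    push Not at hall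
    exact hne (MonoidHom.ext hall)
  obtain ⟨g, hg⟩ := h1
  have hcoset : ∀ {θ : GK K →* 𝕜ˣ}, IsOpen (θ.ker : Set (GK K)) → IsOpen {σ : GK K | θ σ = θ g} := by
    intro θ hθ
    have h2 : {σ : GK K | θ σ = θ g} = (fun σ => g⁻¹ * σ) ⁻¹' (θ.ker : Set (GK K)) := by
      ext σ
      rw [Set.mem_setOf_eq, Set.mem_preimage, SetLike.mem_coe, MonoidHom.mem_ker, map_mul, map_inv]
      constructor
      · intro h3
        rw [h3, inv_mul_cancel]
      · intro h3
        exact (inv_mul_eq_one.1 h3).symm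
    rw [h2]
    exact hθ.preimage (continuous_mul_left _)
  have hO : IsOpen ({σ : GK K | χ σ = χ g} ∩ {σ : GK K | χ' σ = χ' g}) :=
    (hcoset hχ).inter (hcoset hχ')
  have hD := Pool.Agent.Q15.GR.frob_dense (K := K) _ ((ram_finite hχ).union (ram_finite hχ'))
  obtain ⟨σ, ⟨hσ1, hσ2⟩, v, hv, hvσ⟩ := hD.inter_open_nonempty _ hO ⟨g, rfl, rfl⟩
  rw [Set.mem_union, not_or, Set.mem_setOf_eq, Set.mem_setOf_eq, not_not, not_not] at hv
  obtain ⟨⟨a, ha⟩, ⟨b, hb⟩⟩ := hv
  have h7 : T.par (T.tw χ one) v = T.par (T.tw χ' one) v := by rw [h]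
  rw [hT.tw_par χ hχ v a ha, hT.tw_par χ' hχ' v b hb, hone v, Option.map_some, Option.map_some,
    Option.some_inj] at h7
  unfold sc at h7
  rw [Multiset.map_singleton, Multiset.map_singleton, Multiset.singleton_inj, mul_one, mul_one]
    at h7
  apply hg
  rw [← hσ1, ← hσ2, ha.2 σ hvσ, hb.2 σ hvσ]
  exact Units.ext h7

/-- the rank of a twist of the trivial representation -/
theorem deg_tw_triv (hT : T.Known) {one : T.X} (hone : ∀ v, T.par one v = some {1})
    {χ : GK K →* 𝕜ˣ} (hχ : IsOpen (χ.ker : Set (GK K))) : T.deg (T.tw χ one) = 1 := by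
  have hD := Pool.Agent.Q15.GR.frob_dense (K := K) _ (ram_finite hχ)
  obtain ⟨σ, -, v, hv, hvσ⟩ := hD.inter_open_nonempty _ isOpen_univ ⟨1, trivial⟩
  rw [Set.mem_setOf_eq, not_not] at hv
  obtain ⟨a, ha⟩ := hv
  have h1 := hT.tw_par χ hχ v a ha one
  rw [hone v, Option.map_some] at h1
  rw [← (hT.card_par _ v _ h1).1, card_sc, Multiset.card_singleton]

end AutRep

end Pool.Agent.Q227.AK
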