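import Pool.Agent.Q227.AK.A6

/-!
# Fewer than `n` cyclic extensions do not suffice
-/

set_option autoImplicit false

namespace Pool.Agent.Q227.AK

open Pool.Agent.Q227.AR (nm nm_add nm_zero nm_apply_self nm_apply_pow nm_apply_inv nm_comp nm_comm nm_indicator nm_sub nm_cast le_nm Fam gp mem_gp tv mass mass_add mass_mono dl dl_self mass_dl dl_perm nm_dl mass_nm mass_pos sub_dl pair ob mem_ob ob_eq mass_split)

open NumberField IsDedekindDomain Finset
open Pool.Agent.W401.Cheb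

open scoped ENNReal

variable {K : Type} [Field K] [NumberField K] {𝕜 : Type} [Field 𝕜] [IsAlgClosed 𝕜]

/-- the value of a character at a place -/
noncomputable def vl (χ : GK K →* 𝕜ˣ) (v : HeightOneSpectrum (𝓞 K)) : 𝕜ˣ := by
  classical
  exact if h : ∃ a, Val v χ a then h.choose else 1

theorem vl_spec {χ : GK K →* 𝕜ˣ} {v : HeightOneSpectrum (𝓞 K)} (h : ∃ a, Val v χ a) :
    Val v χ (vl χ v) := by
  classical
  unfold vl
  rw [dif_pos h]
  exact h.choose_spec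

namespace AutRep

variable {T : AutRep K 𝕜}

theorem sat_sum (hT : T.Known) {one : T.X} (hone : ∀ v, T.par one v = some {1})
    (s : Finset (GK K →* 𝕜ˣ)) (hs : ∀ χ ∈ s, IsOpen (χ.ker : Set (GK K)))
    {v : HeightOneSpectrum (𝓞 K)} (hv : ∀ χ ∈ s, ∃ a, Val v χ a) :
    T.sat (∑ χ ∈ s, Finsupp.single (T.tw χ one) 1) v
      = some (∑ χ ∈ s, ({(vl χ v : 𝕜)} : Multiset 𝕜)) := by
  classical
  induction s using Finset.induction_on with
  | empty =>
    rw [Finset.sum_empty, Finset.sum_empty]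
    exact sat_zero v
  | insert χ s hχ ih =>
    rw [Finset.sum_insert hχ, Finset.sum_insert hχ, sat_add,
      ih (fun χ' h => hs χ' (Finset.mem_insert_of_mem h))
        (fun χ' h => hv χ' (Finset.mem_insert_of_mem h)),
      sat_single _ one_ne_zero, hT.tw_par χ (hs χ (Finset.mem_insert_self _ _)) v (vl χ v)
        (vl_spec (hv χ (Finset.mem_insert_self _ _))), hone v]
    simp [sc]

theorem sat_tw (hT : T.Known) {one : T.X} (hone : ∀ v, T.par one v = some {1})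
    {χ : GK K →* 𝕜ˣ} (hχ : IsOpen (χ.ker : Set (GK K))) {v : HeightOneSpectrum (𝓞 K)} {a : 𝕜ˣ}
    (ha : Val v χ a) {m : ℕ} (hm : m ≠ 0) :
    T.sat (Finsupp.single (T.tw χ one) m) v = some (m • {(a : 𝕜)}) := by
  rw [sat_single _ hm, hT.tw_par χ hχ v a ha, hone v]
  simp [sc]

/-- the representations over `K` -/
noncomputable def G (one : T.X) (I : Finset (GK K →* 𝕜ˣ)) (ψ ω : GK K →* 𝕜ˣ) (m : ℕ)
    (χ : GK K →* 𝕜ˣ) : T.X →₀ ℕ := by
  classical
  exact ∑ χ' ∈ I.erase χ, Finsupp.single (T.tw χ' one) 1 +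
    (Finsupp.single (T.tw ω one) (m + 1) + Finsupp.single (T.tw (ω * ψ) one) 1)

/-- their parameters -/
theorem sat_G (hT : T.Known) {one : T.X} (hone : ∀ v, T.par one v = some {1})
    {I : Finset (GK K →* 𝕜ˣ)} (hI : ∀ χ ∈ I, IsCyc χ) {ψ ω : GK K →* 𝕜ˣ} (hψ : ψ ∈ I)
    (hω : IsCyc ω) {v : HeightOneSpectrum (𝓞 K)} (hv : ∀ χ ∈ I, ∃ a, Val v χ a)
    (hvω : ∃ a, Val v ω a) (m : ℕ) [DecidableEq (GK K →* 𝕜ˣ)] (χ : GK K →* 𝕜ˣ) :
    T.sat (G one I ψ ω m χ) v = some (∑ χ' ∈ I.erase χ, ({(vl χ' v : 𝕜)} : Multiset 𝕜) +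
      ((m + 1) • {(vl ω v : 𝕜)} + {(vl ω v : 𝕜) * (vl ψ v : 𝕜)})) := by
  unfold G
  rw [sat_add, sat_add, sat_tw hT hone hω.1 (vl_spec hvω) (Nat.succ_ne_zero m),
    sat_tw hT hone (open_mul hω.1 (hI ψ hψ).1) ((vl_spec hvω).mul (vl_spec (hv ψ hψ))) one_ne_zero]
  have h1 := sat_sum hT hone (I.erase χ) (fun χ' h => (hI χ' (Finset.mem_of_mem_erase h)).1)
    (v := v) (fun χ' h => hv χ' (Finset.mem_of_mem_erase h))
  have h2 : (∑ χ' ∈ I.erase χ, Finsupp.single (T.tw χ' one) 1 : T.X →₀ ℕ)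
      = ∑ χ' ∈ @Finset.erase _ (Classical.decEq _) I χ, Finsupp.single (T.tw χ' one) 1 := by
    congr 1
    ext x
    simp
  rw [h2] at h1
  rw [Option.map₂_some_some]
  refine (congrArg₂ _ h1 rfl).trans ?_
  rw [Option.map₂_some_some, one_smul, Units.val_mul]

/-- the ranks -/
theorem rk_G (hT : T.Known) {one : T.X} (hone : ∀ v, T.par one v = some {1})
    {I : Finset (GK K →* 𝕜ˣ)} (hI : ∀ χ ∈ I, IsCyc χ) {ψ ω : GK K →* 𝕜ˣ} (hψ : ψ ∈ I)
    (hω : IsCyc ω) (m : ℕ) {χ : GK K →* 𝕜ˣ} (hχ : χ ∈ I) :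
    T.rk (G one I ψ ω m χ) = I.card + 1 + m := by
  classical
  have hfin : (⋃ χ ∈ insert ω I, {v : HeightOneSpectrum (𝓞 K) | ¬ ∃ a, Val v χ a}).Finite := by
    refine Set.Finite.biUnion (Finset.finite_toSet _) fun χ hχ => ram_finite ?_
    rcases Finset.mem_insert.1 hχ with rfl | h
    · exact hω.1
    · exact (hI χ h).1
  have hD := Pool.Agent.Q15.GR.frob_dense (K := K) _ hfin
  obtain ⟨σ, -, v, hv, hvσ⟩ := hD.inter_open_nonempty _ isOpen_univ ⟨1, trivial⟩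
  have hv' : ∀ χ ∈ insert ω I, ∃ a, Val v χ a := by
    intro χ hχ
    by_contra hne
    exact hv (Set.mem_biUnion hχ hne)
  have h1 := sat_G hT hone hI hψ hω (v := v) (fun χ h => hv' χ (Finset.mem_insert_of_mem h))
    (hv' ω (Finset.mem_insert_self _ _)) m χ
  have h3 : Multiset.card (∑ χ' ∈ I.erase χ, ({(vl χ' v : 𝕜)} : Multiset 𝕜)) = I.card - 1 := by
    rw [Multiset.card_sum, Finset.sum_congr rfl fun (χ' : GK K →* 𝕜ˣ) _ => Multiset.card_singleton (vl χ' v : 𝕜),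
      Finset.sum_const, Finset.card_erase_of_mem hχ, smul_eq_mul, mul_one]
  rw [← sat_card hT h1, Multiset.card_add, Multiset.card_add, h3,
    Multiset.card_nsmul, Multiset.card_singleton, Multiset.card_singleton]
  have h2 : 0 < I.card := Finset.card_pos.2 ⟨χ, hχ⟩
  omega

/-- the prescribed parameters over `K` -/
noncomputable def DD (I : Finset (GK K →* 𝕜ˣ)) (ψ ω : GK K →* 𝕜ˣ) (m : ℕ)
    (v : HeightOneSpectrum (𝓞 K)) : Multiset 𝕜 := by
  classical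
  exact if vl ψ v = 1 then ∑ χ' ∈ I.erase ψ, ({(vl χ' v : 𝕜)} : Multiset 𝕜) +
      ((m + 1) • {(vl ω v : 𝕜)} + {(vl ω v : 𝕜)})
    else ∑ χ' ∈ I, ({(vl χ' v : 𝕜)} : Multiset 𝕜) + (m • {(vl ω v : 𝕜)} + {-1})

theorem sq_one_cases {a : 𝕜ˣ} (h : a ^ 2 = 1) : a = 1 ∨ (a : 𝕜) = -1 := by
  have h1 : (a : 𝕜) ^ 2 = 1 := by
    rw [← Units.val_pow_eq_pow_val, h, Units.val_one]
  have h3 : ((a : 𝕜) - 1) * ((a : 𝕜) + 1) = 0 := by
    linear_combination h1
  rcases (mul_eq_zero.1 h3).imp sub_eq_zero.1 eq_neg_of_add_eq_zero_left with h2 | h2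
  · left
    exact Units.ext h2
  · right
    exact h2

theorem pw_sum (s : Finset (GK K →* 𝕜ˣ)) (f : (GK K →* 𝕜ˣ) → Multiset 𝕜) (n : ℕ) :
    pw n (∑ χ ∈ s, f χ) = ∑ χ ∈ s, pw n (f χ) := by
  classical
  induction s using Finset.induction_on with
  | empty => rfl
  | insert i s hi ih => rw [Finset.sum_insert hi, Finset.sum_insert hi, pw_add, ih]

theorem loc_G (hT : T.Known) {one : T.X} (hone : ∀ v, T.par one v = some {1})
    {I : Finset (GK K →* 𝕜ˣ)} (hI : ∀ χ ∈ I, IsCyc χ) {ψ ω : GK K →* 𝕜ˣ} (hψ : ψ ∈ I)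
    (hψ2 : orderOf ψ = 2) (hω : IsCyc ω) (hω2 : orderOf ω = 2) {v : HeightOneSpectrum (𝓞 K)}
    (hv : ∀ χ ∈ I, ∃ a, Val v χ a) (hvω : ∃ a, Val v ω a) (m : ℕ) {χ : GK K →* 𝕜ˣ}
    (hχ : χ ∈ I) : Loc T χ (T.bc χ (G one I ψ ω m χ)) (DD I ψ ω m v) v := by
  classical
  refine ⟨vl χ v, vl_spec (hv χ hχ), ?_⟩
  rw [hT.bc_par χ (hI χ hχ) v _ (vl_spec (hv χ hχ)), sat_G hT hone hI hψ hω hv hvω m χ,
    Option.map_some, Option.some_inj]
  have hw : vl ω v ^ 2 = 1 := by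
    have := (vl_spec hvω).pow_orderOf
    rwa [hω2] at this
  have hs : vl ψ v ^ 2 = 1 := by
    have := (vl_spec (hv ψ hψ)).pow_orderOf
    rwa [hψ2] at this
  have hone' : pw (orderOf (vl χ v)) {(vl χ v : 𝕜)} = pw (orderOf (vl χ v)) {1} := by
    unfold pw
    rw [Multiset.map_singleton, Multiset.map_singleton, one_pow, ← Units.val_pow_eq_pow_val,
      pow_orderOf_eq_one, Units.val_one]
  unfold DD
  by_cases h1 : vl ψ v = 1
  · have h2 : (if vl ψ v = 1 then ∑ χ' ∈ @Finset.erase _ (fun a b => Classical.propDecidable (a = b))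
          I ψ, ({(vl χ' v : 𝕜)} : Multiset 𝕜) + ((m + 1) • {(vl ω v : 𝕜)} + {(vl ω v : 𝕜)})
        else ∑ χ' ∈ I, ({(vl χ' v : 𝕜)} : Multiset 𝕜) + (m • {(vl ω v : 𝕜)} + {-1}))
        = ∑ χ' ∈ I.erase ψ, ({(vl χ' v : 𝕜)} : Multiset 𝕜) +
          ((m + 1) • {(vl ω v : 𝕜)} + {(vl ω v : 𝕜)}) := by
      rw [if_pos h1]
    rw [h2, h1, Units.val_one, mul_one, pw_add, pw_add (orderOf (vl χ v)) (∑ χ' ∈ I.erase ψ, _)]
    congr 1
    by_cases hχψ : χ = ψ
    · rw [hχψ]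
    · rw [← Finset.add_sum_erase (I.erase χ) (fun χ' => ({(vl χ' v : 𝕜)} : Multiset 𝕜))
        (Finset.mem_erase.2 ⟨fun e => hχψ e.symm, hψ⟩),
        ← Finset.add_sum_erase (I.erase ψ) (fun χ' => ({(vl χ' v : 𝕜)} : Multiset 𝕜))
        (Finset.mem_erase.2 ⟨hχψ, hχ⟩), Finset.erase_right_comm, pw_add, pw_add]
      congr 1
      rw [hone', h1, Units.val_one]
  · have h2 : (vl ψ v : 𝕜) = -1 := (sq_one_cases hs).resolve_left h1
    rw [if_neg h1, h2, ← Finset.add_sum_erase I (fun χ' => ({(vl χ' v : 𝕜)} : Multiset 𝕜)) hχ]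
    have h3 : ((m + 1) • {(vl ω v : 𝕜)} + {(vl ω v : 𝕜) * -1} : Multiset 𝕜)
        = m • {(vl ω v : 𝕜)} + ({1} + {-1}) := by
      rw [add_smul, one_smul, add_assoc]
      congr 1
      rcases sq_one_cases hw with h4 | h4
      · rw [h4, Units.val_one, one_mul]
      · rw [h4]
        have h5 : (-1 : 𝕜) * -1 = 1 := by ring
        rw [h5, add_comm]
    rw [h3]
    have e1 : ∀ A B C D : Multiset 𝕜, A + (B + (C + D)) = C + (A + (B + D)) := by
      intro A B C D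
      abel
    have e2 : ∀ A B C D : Multiset 𝕜, A + B + (C + D) = A + (B + (C + D)) := by
      intro A B C D
      abel
    rw [e1, e2, pw_add, pw_add (orderOf (vl χ v)) ({(vl χ v : 𝕜)}), hone']

/-- fewer than `n` extensions do not suffice -/
theorem sharp (hT : T.Known) {one : T.X} (hone : ∀ v, T.par one v = some {1})
    {I : Finset (GK K →* 𝕜ˣ)} (hI : ∀ χ ∈ I, IsCyc χ)
    (hinj : Set.InjOn orderOf (I : Set (GK K →* 𝕜ˣ))) (h3 : 3 ≤ I.card) {ψ : GK K →* 𝕜ˣ}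
    (hψ : ψ ∈ I) (hψ2 : orderOf ψ = 2) {ω : GK K →* 𝕜ˣ} (hω : IsCyc ω) (hω2 : orderOf ω = 2)
    (hne : ω ≠ ψ) {n : ℕ} (hn : I.card < n) :
    ∃ (D : HeightOneSpectrum (𝓞 K) → Multiset 𝕜) (P : ∀ χ, T.Y χ),
      (∀ χ ∈ I, T.degE χ (P χ) = n ∧ {v | ¬ Loc T χ (P χ) (D v) v}.Finite) ∧
      ¬ ∃ F : T.X →₀ ℕ, ∀ χ ∈ I, T.bc χ F = P χ := by
  classical
  obtain ⟨m, rfl⟩ : ∃ m, n = I.card + 1 + m := ⟨n - I.card - 1, by omega⟩
  refine ⟨DD I ψ ω m, fun χ => T.bc χ (G one I ψ ω m χ), ?_, ?_⟩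
  · intro χ hχ
    refine ⟨?_, ?_⟩
    · rw [hT.bc_rk χ (hI χ hχ), rk_G hT hone hI hψ hω m hχ]
    · have hfin : (⋃ χ ∈ insert ω I, {v : HeightOneSpectrum (𝓞 K) | ¬ ∃ a, Val v χ a}).Finite := by
        refine Set.Finite.biUnion (Finset.finite_toSet _) fun χ hχ => ram_finite ?_
        rcases Finset.mem_insert.1 hχ with rfl | h
        · exact hω.1
        · exact (hI χ h).1
      refine hfin.subset ?_
      intro v hv
      by_contra hcon
      have hv' : ∀ χ ∈ insert ω I, ∃ a, Val v χ a := by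
        intro χ hχ
        by_contra hne
        exact hcon (Set.mem_biUnion hχ hne)
      exact hv (loc_G hT hone hI hψ hψ2 hω hω2 (fun χ h => hv' χ (Finset.mem_insert_of_mem h))
        (hv' ω (Finset.mem_insert_self _ _)) m hχ)
  · rintro ⟨F, hF⟩
    have hnm : ∀ χ, ∀ hχ : χ ∈ I, nm (pm hT (hI χ hχ).1) (orderOf χ) (⇑F)
        = nm (pm hT (hI χ hχ).1) (orderOf χ) (⇑(G one I ψ ω m χ)) := by
      intro χ hχ
      have h1 := (bc_eq_iff hT (hI χ hχ) F (G one I ψ ω m χ)).1 (hF χ hχ)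
      have h2 : ⇑(NF χ F) = ⇑(NF χ (G one I ψ ω m χ)) := by rw [h1]
      rw [NF_coe hT (hI χ hχ).1, NF_coe hT (hI χ hχ).1] at h2
      exact h2
    -- the support of `G χ`
    have hG : ∀ χ x, G one I ψ ω m χ x ≠ 0 → x = T.tw ω one ∨ x = T.tw (ω * ψ) one ∨
        ∃ χ' ∈ I, χ' ≠ χ ∧ x = T.tw χ' one := by
      intro χ x hx
      by_contra hcon
      push Not at hcon
      apply hx
      unfold G
      rw [Finsupp.add_apply, Finsupp.add_apply, Finsupp.single_apply, Finsupp.single_apply,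
        if_neg (fun e => hcon.1 e.symm), if_neg (fun e => hcon.2.1 e.symm), Finsupp.finsetSum_apply]
      rw [add_zero, add_zero]
      refine Finset.sum_eq_zero fun χ' hχ' => ?_
      rw [Finset.mem_erase] at hχ'
      rw [Finsupp.single_apply, if_neg (fun e => hcon.2.2 χ' hχ'.2 hχ'.1 e.symm)]
    -- two more members
    obtain ⟨j, hj⟩ : (I.erase ψ).Nonempty := by
      rw [← Finset.card_pos, Finset.card_erase_of_mem hψ]
      omega
    obtain ⟨i, hi⟩ : ((I.erase ψ).erase j).Nonempty := by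
      rw [← Finset.card_pos, Finset.card_erase_of_mem hj, Finset.card_erase_of_mem hψ]
      omega
    have hjψ := (Finset.mem_erase.1 hj).1
    have hjI := (Finset.mem_erase.1 hj).2
    have hij := (Finset.mem_erase.1 hi).1
    have hiψ := (Finset.mem_erase.1 (Finset.mem_erase.1 hi).2).1
    have hiI := (Finset.mem_erase.1 (Finset.mem_erase.1 hi).2).2
    -- a member of `F`
    have h4 : G one I ψ ω m ψ (T.tw j one) ≠ 0 := by
      unfold G
      rw [Finsupp.add_apply, Finsupp.finsetSum_apply]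
      have h5 : (Finsupp.single (T.tw j one) 1 : T.X →₀ ℕ) (T.tw j one)
          ≤ ∑ χ' ∈ @Finset.erase _ (fun a b => Classical.propDecidable (a = b)) I ψ,
            (Finsupp.single (T.tw χ' one) 1 : T.X →₀ ℕ) (T.tw j one) :=
        Finset.single_le_sum (f := fun χ' => (Finsupp.single (T.tw χ' one) 1 : T.X →₀ ℕ)
          (T.tw j one)) (fun _ _ => Nat.zero_le _) (Finset.mem_erase.2 ⟨hjψ, hjI⟩)
      rw [Finsupp.single_eq_same] at h5
      omega
    obtain ⟨k, hk⟩ : ∃ k : ℕ, F (T.tw (ψ ^ k * j) one) ≠ 0 := by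
      by_contra hcon
      push Not at hcon
      have h5 : nm (pm hT (hI ψ hψ).1) (orderOf ψ) (⇑F) (T.tw j one) = 0 := by
        refine Finset.sum_eq_zero fun k _ => ?_
        rw [pm_pow, ← hT.tw_mul _ _ (open_pow (hI ψ hψ).1 k) (hI j hjI).1]
        exact hcon k
      rw [hnm ψ hψ] at h5
      have h6 := le_nm (pm hT (hI ψ hψ).1) (hI ψ hψ).2.pos (⇑(G one I ψ ω m ψ)) (T.tw j one)
      omega
    have hlo : IsOpen ((ψ ^ k * j).ker : Set (GK K)) :=
      open_mul (open_pow (hI ψ hψ).1 k) (hI j hjI).1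
    have hall : ∀ χ ∈ I, ∃ l : ℕ, χ ^ l * (ψ ^ k * j) = ω ∨ χ ^ l * (ψ ^ k * j) = ω * ψ ∨
        ∃ χ' ∈ (I : Set (GK K →* 𝕜ˣ)), χ' ≠ χ ∧ χ ^ l * (ψ ^ k * j) = χ' := by
      intro χ hχ
      have h5 := le_nm (pm hT (hI χ hχ).1) (hI χ hχ).2.pos (⇑F) (T.tw (ψ ^ k * j) one)
      rw [hnm χ hχ] at h5
      obtain ⟨l, hl⟩ : ∃ l : ℕ, G one I ψ ω m χ (T.tw (χ ^ l * (ψ ^ k * j)) one) ≠ 0 := by
        by_contra hcon
        push Not at hcon
        have h6 : nm (pm hT (hI χ hχ).1) (orderOf χ) (⇑(G one I ψ ω m χ))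
            (T.tw (ψ ^ k * j) one) = 0 := by
          refine Finset.sum_eq_zero fun l _ => ?_
          rw [pm_pow, ← hT.tw_mul _ _ (open_pow (hI χ hχ).1 l) hlo]
          exact hcon l
        omega
      have hlo' : IsOpen ((χ ^ l * (ψ ^ k * j)).ker : Set (GK K)) :=
        open_mul (open_pow (hI χ hχ).1 l) hlo
      refine ⟨l, ?_⟩
      rcases hG χ _ hl with h6 | h6 | ⟨χ', hχ', hne', h6⟩
      · left
        exact tw_triv_inj hT hone hlo' hω.1 h6
      · right; left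
        exact tw_triv_inj hT hone hlo' (open_mul hω.1 (hI ψ hψ).1) h6
      · right; right
        exact ⟨χ', hχ', hne', tw_triv_inj hT hone hlo' (hI χ' hχ').1 h6⟩
    obtain ⟨l, hl⟩ := hall j hjI
    obtain ⟨l', hl'⟩ := hall i hiI
    exact excl (I := (I : Set (GK K →* 𝕜ˣ))) (fun χ hχ => (hI χ hχ).2) hinj hψ hjI hiI hjψ hiψ hij
      hψ2 hω2 hne hl hl'

end AutRep

end Pool.Agent.Q227.AK
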