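import Pool.Agent.Q227.AK.A7
import Pool.Agent.Q227.AR.T5

/-!
# Generic places
-/

set_option autoImplicit false

namespace Pool.Agent.Q227.AK

open Pool.Agent.Q227.AR (nm nm_add nm_zero nm_apply_self nm_apply_pow nm_apply_inv nm_comp nm_comm nm_indicator nm_sub nm_cast le_nm Fam gp mem_gp tv mass mass_add mass_mono dl dl_self mass_dl dl_perm nm_dl mass_nm mass_pos sub_dl pair ob mem_ob ob_eq mass_split)

open NumberField IsDedekindDomain Finset
open Pool.Agent.W401.Cheb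

open scoped ENNReal

variable {K : Type} [Field K] [NumberField K] {𝕜 : Type} [Field 𝕜] [IsAlgClosed 𝕜]

/-- products of powers -/
noncomputable def lam (I : Finset (GK K →* 𝕜ˣ)) (e : (GK K →* 𝕜ˣ) → ℤ) : GK K →* 𝕜ˣ := ∏ χ ∈ I, χ ^ e χ

theorem lam_apply (I : Finset (GK K →* 𝕜ˣ)) (e : (GK K →* 𝕜ˣ) → ℤ) (σ : GK K) :
    lam I e σ = ∏ χ ∈ I, χ σ ^ e χ := by
  have h1 : lam I e σ = MonoidHom.eval σ (∏ χ ∈ I, χ ^ e χ) := rfl
  rw [h1, map_prod]
  exact Finset.prod_congr rfl fun χ _ => map_zpow (MonoidHom.eval σ) χ (e χ)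

theorem lam_add (I : Finset (GK K →* 𝕜ˣ)) (e e' : (GK K →* 𝕜ˣ) → ℤ) :
    lam I (e + e') = lam I e * lam I e' := by
  ext σ
  rw [MonoidHom.mul_apply, lam_apply, lam_apply, lam_apply, ← Finset.prod_mul_distrib]
  congr 1
  exact Finset.prod_congr rfl fun χ _ => by rw [Pi.add_apply, zpow_add]

theorem lam_zero (I : Finset (GK K →* 𝕜ˣ)) : lam I 0 = 1 := by
  ext σ
  rw [lam_apply]
  congr 1
  exact Finset.prod_eq_one fun χ _ => zpow_zero _

theorem lam_neg (I : Finset (GK K →* 𝕜ˣ)) (e : (GK K →* 𝕜ˣ) → ℤ) :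
    lam I (-e) = (lam I e)⁻¹ := by
  ext σ
  rw [MonoidHom.inv_apply, lam_apply, lam_apply, ← Finset.prod_inv_distrib]
  congr 1
  exact Finset.prod_congr rfl fun χ _ => by rw [Pi.neg_apply, zpow_neg]

theorem lam_single [DecidableEq (GK K →* 𝕜ˣ)] {I : Finset (GK K →* 𝕜ˣ)} {χ : GK K →* 𝕜ˣ}
    (hχ : χ ∈ I) : lam I (Pi.single χ 1) = χ := by
  ext σ
  rw [lam_apply, Finset.prod_eq_single χ]
  · rw [Pi.single_eq_same, zpow_one]
  · intro χ' _ hne
    rw [Pi.single_eq_of_ne hne, zpow_zero]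
  · intro h
    exact absurd hχ h

theorem lam_open {I : Finset (GK K →* 𝕜ˣ)} (hI : ∀ χ ∈ I, IsOpen (χ.ker : Set (GK K)))
    (e : (GK K →* 𝕜ˣ) → ℤ) : IsOpen ((lam I e).ker : Set (GK K)) := by
  classical
  have h1 : ∀ s : Finset (GK K →* 𝕜ˣ), s ⊆ I →
      IsOpen ((⨅ χ ∈ s, χ.ker : Subgroup (GK K)) : Set (GK K)) := by
    intro s
    induction s using Finset.induction_on with
    | empty =>
      intro _
      simp
    | insert χ s hχ ih =>
      intro hs
      rw [Finset.iInf_insert]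
      exact (hI χ (hs (Finset.mem_insert_self _ _))).inter
        (ih fun x hx => hs (Finset.mem_insert_of_mem hx))
  refine Subgroup.isOpen_mono (H₁ := ⨅ χ ∈ I, χ.ker) (H₂ := (lam I e).ker) ?_ (h1 I subset_rfl)
  intro σ hσ
  rw [MonoidHom.mem_ker, lam_apply]
  refine Finset.prod_eq_one fun χ hχ => ?_
  have h2 : σ ∈ χ.ker := by
    rw [Subgroup.mem_iInf] at hσ
    have := hσ χ
    rw [Subgroup.mem_iInf] at this
    exact this hχ
  rw [MonoidHom.mem_ker] at h2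
  rw [h2, one_zpow]

theorem lam_val {I : Finset (GK K →* 𝕜ˣ)} {v : HeightOneSpectrum (𝓞 K)}
    (hv : ∀ χ ∈ I, ∃ a, Val v χ a) (e : (GK K →* 𝕜ˣ) → ℤ) :
    Val v (lam I e) (∏ χ ∈ I, vl χ v ^ e χ) :=
  ⟨fun σ hσ => by
    rw [lam_apply]
    exact Finset.prod_eq_one fun χ hχ => by rw [(vl_spec (hv χ hχ)).1 σ hσ, one_zpow],
    fun σ hσ => by
    rw [lam_apply]
    exact Finset.prod_congr rfl fun χ hχ => by rw [(vl_spec (hv χ hχ)).2 σ hσ]⟩

/-- roots of unity of different prime orders are independent -/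
theorem prod_indep {A : Type} [CommGroup A] {ι : Type} {I : Finset ι} {p : ι → ℕ} {a : ι → A}
    (hp : ∀ i ∈ I, (p i).Prime) (hinj : ∀ i ∈ I, ∀ j ∈ I, p i = p j → i = j)
    (ha : ∀ i ∈ I, a i ^ p i = 1) {e : ι → ℤ} (h : ∏ i ∈ I, a i ^ e i = 1) :
    ∀ i ∈ I, a i ^ e i = 1 := by
  classical
  intro i hi
  set m : ℕ := ∏ j ∈ I.erase i, p j with hm
  have h1 : (a i ^ e i) ^ m = 1 := by
    have h2 : (∏ j ∈ I, a j ^ e j) ^ m = 1 := by rw [h, one_pow]
    rw [← Finset.mul_prod_erase I _ hi, mul_pow] at h2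
    have h3 : (∏ j ∈ I.erase i, a j ^ e j) ^ m = 1 := by
      rw [← Finset.prod_pow]
      refine Finset.prod_eq_one fun j hj => ?_
      obtain ⟨c, hc⟩ := Finset.dvd_prod_of_mem p hj
      rw [← zpow_natCast, ← zpow_mul, mul_comm, zpow_mul, zpow_natCast, hm, hc, pow_mul,
        ha j (Finset.mem_of_mem_erase hj), one_pow, one_zpow]
    rwa [h3, mul_one] at h2
  have h2 : (a i ^ e i) ^ p i = 1 := by
    rw [← zpow_natCast, ← zpow_mul, mul_comm, zpow_mul, zpow_natCast, ha i hi, one_zpow]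
  have h3 : Nat.Coprime m (p i) := by
    refine Nat.Coprime.prod_left fun j hj => ?_
    rw [Nat.coprime_primes (hp j (Finset.mem_of_mem_erase hj)) (hp i hi)]
    intro e'
    exact (Finset.mem_erase.1 hj).1 (hinj j (Finset.mem_of_mem_erase hj) i hi e')
  rw [← orderOf_eq_one_iff]
  exact Nat.eq_one_of_dvd_coprimes h3 (orderOf_dvd_of_pow_eq_one h1) (orderOf_dvd_of_pow_eq_one h2)

/-- a character which is trivial at a generic place is trivial -/
theorem lam_eq_one {I : Finset (GK K →* 𝕜ˣ)} (hI : ∀ χ ∈ I, IsCyc χ)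
    (hinj : Set.InjOn orderOf (I : Set (GK K →* 𝕜ˣ))) {v : HeightOneSpectrum (𝓞 K)}
    (hv : ∀ χ ∈ I, ∃ a, Val v χ a ∧ a ≠ 1) {e : (GK K →* 𝕜ˣ) → ℤ}
    (h : ∏ χ ∈ I, vl χ v ^ e χ = 1) : lam I e = 1 := by
  have hv' : ∀ χ ∈ I, ∃ a, Val v χ a := fun χ hχ => (hv χ hχ).imp fun a ha => ha.1
  have h1 := prod_indep (I := I) (p := orderOf) (a := fun χ => vl χ v)
    (fun χ hχ => (hI χ hχ).2) (fun χ hχ χ' hχ' e => hinj hχ hχ' e)
    (fun χ hχ => (vl_spec (hv' χ hχ)).pow_orderOf) h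
  ext σ
  rw [lam_apply]
  congr 1
  refine Finset.prod_eq_one fun χ hχ => ?_
  have h2 : vl χ v ≠ 1 := by
    obtain ⟨a, ha, hne⟩ := hv χ hχ
    rw [(vl_spec (hv' χ hχ)).unique ha]
    exact hne
  have h3 : orderOf (vl χ v) = orderOf χ := by
    haveI := Fact.mk (hI χ hχ).2
    exact orderOf_eq_prime (vl_spec (hv' χ hχ)).pow_orderOf h2
  have h4 : (orderOf χ : ℤ) ∣ e χ := by
    rw [← h3]
    exact orderOf_dvd_iff_zpow_eq_one.2 (h1 χ hχ)
  obtain ⟨c, hc⟩ := h4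
  have h5 : χ σ ^ orderOf χ = 1 := by
    have h6 : χ ^ orderOf χ = 1 := pow_orderOf_eq_one _
    have h7 : (χ ^ orderOf χ) σ = 1 := by rw [h6, MonoidHom.one_apply]
    exact h7
  rw [hc, zpow_mul, zpow_natCast, h5, one_zpow]

/-- there are generic places -/
theorem exists_gen {I : Finset (GK K →* 𝕜ˣ)} (hI : ∀ χ ∈ I, IsCyc χ)
    (hinj : Set.InjOn orderOf (I : Set (GK K →* 𝕜ˣ))) {S₀ : Set (HeightOneSpectrum (𝓞 K))}
    (hS₀ : S₀.Finite) : ∃ v ∉ S₀, ∀ χ ∈ I, ∃ a, Val v χ a ∧ a ≠ 1 := by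
  classical
  -- an automorphism
  have h1 : ∃ g : GK K, ∀ χ ∈ I, χ g ≠ 1 := by
    have h2 : ∀ χ : GK K →* 𝕜ˣ, ∃ g, χ ∈ I → χ g ≠ 1 := by
      intro χ
      by_cases hχ : χ ∈ I
      · by_contra hcon
        push Not at hcon
        have h3 : χ = 1 := MonoidHom.ext fun g => (hcon g).2
        have h4 := (hI χ hχ).2
        rw [h3, orderOf_one] at h4
        exact Nat.not_prime_one h4
      · exact ⟨1, fun h => absurd h hχ⟩
    choose g hg using h2
    set m : (GK K →* 𝕜ˣ) → ℕ := fun χ => ∏ χ' ∈ I.erase χ, orderOf χ' with hm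
    have key : ∀ s : Finset (GK K →* 𝕜ˣ), s ⊆ I → ∃ g' : GK K, ∀ χ ∈ I,
        χ g' = if χ ∈ s then χ (g χ) ^ m χ else 1 := by
      intro s
      induction s using Finset.induction_on with
      | empty =>
        intro _
        exact ⟨1, fun χ _ => by rw [map_one, if_neg (Finset.notMem_empty χ)]⟩
      | insert χ₀ s hχ₀ ih =>
        intro hs
        obtain ⟨g', hg'⟩ := ih fun x hx => hs (Finset.mem_insert_of_mem hx)
        refine ⟨g χ₀ ^ m χ₀ * g', fun χ hχ => ?_⟩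
        rw [map_mul, map_pow, hg' χ hχ]
        by_cases he : χ = χ₀
        · subst he
          rw [if_neg hχ₀, if_pos (Finset.mem_insert_self _ _), mul_one]
        · have h3 : χ (g χ₀) ^ m χ₀ = 1 := by
            obtain ⟨c, hc⟩ := Finset.dvd_prod_of_mem (fun χ' : GK K →* 𝕜ˣ => orderOf χ')
              (Finset.mem_erase.2 ⟨he, hχ⟩ : χ ∈ I.erase χ₀)
            have h5 : χ (g χ₀) ^ orderOf χ = 1 := by
              have h6 : χ ^ orderOf χ = 1 := pow_orderOf_eq_one _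
              have h7 : (χ ^ orderOf χ) (g χ₀) = 1 := by rw [h6, MonoidHom.one_apply]
              exact h7
            rw [hm]
            change χ (g χ₀) ^ (∏ χ' ∈ I.erase χ₀, orderOf χ') = 1
            rw [hc, pow_mul, h5, one_pow]
          rw [h3, one_mul]
          by_cases hs' : χ ∈ s
          · rw [if_pos hs', if_pos (Finset.mem_insert_of_mem hs')]
          · rw [if_neg hs', if_neg]
            rw [Finset.mem_insert]
            rintro (h | h)
            · exact he h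
            · exact hs' h
    obtain ⟨g', hg'⟩ := key I subset_rfl
    refine ⟨g', fun χ hχ => ?_⟩
    rw [hg' χ hχ, if_pos hχ]
    intro h3
    apply hg χ hχ
    have h5 : χ (g χ) ^ orderOf χ = 1 := by
      have h6 : χ ^ orderOf χ = 1 := pow_orderOf_eq_one _
      have h7 : (χ ^ orderOf χ) (g χ) = 1 := by rw [h6, MonoidHom.one_apply]
      exact h7
    have h6 : Nat.Coprime (m χ) (orderOf χ) := by
      refine Nat.Coprime.prod_left fun χ' hχ' => ?_
      rw [Nat.coprime_primes (hI χ' (Finset.mem_of_mem_erase hχ')).2 (hI χ hχ).2]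
      intro e'
      exact (Finset.mem_erase.1 hχ').1 (hinj (Finset.mem_of_mem_erase hχ') hχ e')
    rw [← orderOf_eq_one_iff]
    exact Nat.eq_one_of_dvd_coprimes h6 (orderOf_dvd_of_pow_eq_one h3)
      (orderOf_dvd_of_pow_eq_one h5)
  obtain ⟨g, hg⟩ := h1
  -- an open set
  have hcoset : ∀ {θ : GK K →* 𝕜ˣ}, IsOpen (θ.ker : Set (GK K)) → IsOpen {σ : GK K | θ σ = θ g} := by
    intro θ hθ
    have h2 : {σ : GK K | θ σ = θ g} = (fun σ => g⁻¹ * σ) ⁻¹' (θ.ker : Set (GK K)) := by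
      ext σ
      rw [Set.mem_setOf_eq, Set.mem_preimage, SetLike.mem_coe, MonoidHom.mem_ker, map_mul, map_inv]
      constructor
      · intro h3
        rw [h3, inv_mul_cancel]
      · intro h3
        exact (inv_mul_eq_one.1 h3).symm
    rw [h2]
    exact hθ.preimage (continuous_mul_left _)
  have hO : IsOpen (⋂ χ ∈ I, {σ : GK K | χ σ = χ g}) :=
    isOpen_biInter_finset fun χ hχ => hcoset (hI χ hχ).1
  have hfin : (S₀ ∪ ⋃ χ ∈ I, {v : HeightOneSpectrum (𝓞 K) | ¬ ∃ a, Val v χ a}).Finite :=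
    hS₀.union (Set.Finite.biUnion (Finset.finite_toSet _) fun χ hχ => ram_finite (hI χ hχ).1)
  have hD := Pool.Agent.Q15.GR.frob_dense (K := K) _ hfin
  obtain ⟨σ, hσ, v, hv, hvσ⟩ := hD.inter_open_nonempty _ hO ⟨g, by
    rw [Set.mem_iInter₂]
    intro χ _
    rfl⟩
  rw [Set.mem_iInter₂] at hσ
  refine ⟨v, fun h => hv (Or.inl h), fun χ hχ => ?_⟩
  have hex : ∃ a, Val v χ a := by
    by_contra hne
    exact hv (Or.inr (Set.mem_biUnion hχ hne))
  obtain ⟨a, ha⟩ := hex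
  refine ⟨a, ha, ?_⟩
  rw [← ha.2 σ hvσ]
  have h2 : χ σ = χ g := hσ χ hχ
  rw [h2]
  exact hg χ hχ

end Pool.Agent.Q227.AK
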