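import Pool.Agent.Q227.AK.A8

/-!
# The parameters of representations of rank one
-/

set_option autoImplicit false

namespace Pool.Agent.Q227.AK

open Pool.Agent.Q227.AR (nm nm_add nm_zero nm_apply_self nm_apply_pow nm_apply_inv nm_comp nm_comm nm_indicator nm_sub nm_cast le_nm Fam gp mem_gp tv mass mass_add mass_mono dl dl_self mass_dl dl_perm nm_dl mass_nm mass_pos sub_dl pair ob mem_ob ob_eq mass_split)

open NumberField IsDedekindDomain Finset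
open Pool.Agent.W401.Cheb

open scoped ENNReal

variable {K : Type} [Field K] [NumberField K] {𝕜 : Type} [Field 𝕜] [IsAlgClosed 𝕜]

namespace AutRep

variable {T : AutRep K 𝕜}

/-- the sum of the parameters -/
noncomputable def cv (x : T.X) (v : HeightOneSpectrum (𝓞 K)) : 𝕜 := ((T.par x v).getD 0).sum

theorem cv_spec (hT : T.Known) {x : T.X} (hx : T.deg x = 1) {v : HeightOneSpectrum (𝓞 K)}
    (hv : T.par x v ≠ none) : T.par x v = some {cv x v} ∧ cv x v ≠ 0 := by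
  obtain ⟨M, hM⟩ := Option.ne_none_iff_exists'.1 hv
  obtain ⟨h1, h2⟩ := hT.card_par x v M hM
  rw [hx, Multiset.card_eq_one] at h1
  obtain ⟨z, rfl⟩ := h1
  have h3 : cv x v = z := by
    unfold cv
    rw [hM, Option.getD_some, Multiset.sum_singleton]
  rw [h3]
  refine ⟨hM, ?_⟩
  rintro rfl
  exact h2 (Multiset.mem_singleton_self _)

theorem par_tw_ne (hT : T.Known) {χ : GK K →* 𝕜ˣ} (hχ : IsOpen (χ.ker : Set (GK K)))
    {v : HeightOneSpectrum (𝓞 K)} {a : 𝕜ˣ} (h : Val v χ a) {x : T.X} (hx : T.par x v ≠ none) :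
    T.par (T.tw χ x) v ≠ none := by
  rw [hT.tw_par χ hχ v a h]
  obtain ⟨M, hM⟩ := Option.ne_none_iff_exists'.1 hx
  rw [hM]
  simp

theorem cv_tw (hT : T.Known) {χ : GK K →* 𝕜ˣ} (hχ : IsOpen (χ.ker : Set (GK K)))
    {v : HeightOneSpectrum (𝓞 K)} {a : 𝕜ˣ} (h : Val v χ a) {x : T.X} (hx1 : T.deg x = 1)
    (hx : T.par x v ≠ none) : cv (T.tw χ x) v = a * cv x v := by
  unfold cv
  rw [hT.tw_par χ hχ v a h, (cv_spec hT hx1 hx).1]
  simp [sc]

/-- twisting preserves the rank -/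
theorem deg_tw (hT : T.Known) {χ : GK K →* 𝕜ˣ} (hχ : IsOpen (χ.ker : Set (GK K))) (x : T.X) :
    T.deg (T.tw χ x) = T.deg x := by
  have hD := Pool.Agent.Q15.GR.frob_dense (K := K) _ ((ram_finite hχ).union (hT.finite_ram x))
  obtain ⟨σ, -, v, hv, hvσ⟩ := hD.inter_open_nonempty _ isOpen_univ ⟨1, trivial⟩
  rw [Set.mem_union, not_or, Set.mem_setOf_eq, not_not, Set.mem_setOf_eq] at hv
  obtain ⟨⟨a, ha⟩, hx⟩ := hv
  obtain ⟨M, hM⟩ := Option.ne_none_iff_exists'.1 hx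
  have h1 := hT.tw_par χ hχ v a ha x
  rw [hM, Option.map_some] at h1
  rw [← (hT.card_par _ v _ h1).1, card_sc, (hT.card_par _ v _ hM).1]

section fam

variable {I : Finset (GK K →* 𝕜ˣ)}

/-- the permutations -/
noncomputable abbrev pms (hT : T.Known) (hI : ∀ χ ∈ I, IsCyc χ) : {χ // χ ∈ I} → Equiv.Perm T.X :=
  fun χ => pm hT (hI χ χ.2).1

theorem gp_lam (hT : T.Known) (hI : ∀ χ ∈ I, IsCyc χ) {J : Finset {χ // χ ∈ I}}
    {γ : Equiv.Perm T.X} (hγ : γ ∈ gp (pms hT hI) J) :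
    ∃ e : (GK K →* 𝕜ˣ) → ℤ, ∀ x, γ x = T.tw (lam I e) x := by
  classical
  have hop : ∀ e, IsOpen ((lam I e).ker : Set (GK K)) := lam_open fun χ hχ => (hI χ hχ).1
  unfold gp at hγ
  induction hγ using Subgroup.closure_induction with
  | mem x hx =>
    obtain ⟨χ, -, rfl⟩ := hx
    refine ⟨Pi.single χ.1 1, fun y => ?_⟩
    rw [lam_single χ.2]
    rfl
  | one => exact ⟨0, fun y => by rw [lam_zero, tw_one hT]; rfl⟩
  | mul x y _ _ h1 h2 =>
    obtain ⟨e, he⟩ := h1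
    obtain ⟨e', he'⟩ := h2
    refine ⟨e + e', fun z => ?_⟩
    rw [lam_add, hT.tw_mul _ _ (hop e) (hop e'), Equiv.Perm.mul_apply, he', he]
  | inv x _ h1 =>
    obtain ⟨e, he⟩ := h1
    refine ⟨-e, fun z => ?_⟩
    rw [lam_neg, Equiv.Perm.inv_eq_iff_eq, he, ← hT.tw_mul _ _ (hop e) (open_inv (hop e))]
    have h3 : lam I e * (lam I e)⁻¹ = 1 := mul_inv_cancel (lam I e)
    rw [h3, tw_one hT]

theorem ob_lam (hT : T.Known) (hI : ∀ χ ∈ I, IsCyc χ) {J : Finset {χ // χ ∈ I}} {x y : T.X}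
    (hy : y ∈ ob (pms hT hI) J x) : ∃ e : (GK K →* 𝕜ˣ) → ℤ, y = T.tw (lam I e) x := by
  obtain ⟨γ, hγ, rfl⟩ := hy
  obtain ⟨e, he⟩ := gp_lam hT hI hγ
  exact ⟨e, he x⟩

theorem ob_deg (hT : T.Known) (hI : ∀ χ ∈ I, IsCyc χ) {J : Finset {χ // χ ∈ I}} {x y : T.X}
    (hy : y ∈ ob (pms hT hI) J x) : T.deg y = T.deg x := by
  obtain ⟨e, rfl⟩ := ob_lam hT hI hy
  exact deg_tw hT (lam_open (fun χ hχ => (hI χ hχ).1) e) x

theorem ob_par (hT : T.Known) (hI : ∀ χ ∈ I, IsCyc χ) {J : Finset {χ // χ ∈ I}} {x y : T.X}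
    (hy : y ∈ ob (pms hT hI) J x) {v : HeightOneSpectrum (𝓞 K)} (hv : ∀ χ ∈ I, ∃ a, Val v χ a)
    (hx : T.par x v ≠ none) : T.par y v ≠ none := by
  obtain ⟨e, rfl⟩ := ob_lam hT hI hy
  exact par_tw_ne hT (lam_open (fun χ hχ => (hI χ hχ).1) e) (lam_val hv e) hx

/-- the parameters at a generic place separate the twists of a representation of rank one -/
theorem cv_inj (hT : T.Known) (hI : ∀ χ ∈ I, IsCyc χ)
    (hinj : Set.InjOn orderOf (I : Set (GK K →* 𝕜ˣ))) {J : Finset {χ // χ ∈ I}} {x₀ x y : T.X}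
    (hx₀ : T.deg x₀ = 1) {v : HeightOneSpectrum (𝓞 K)} (hv : ∀ χ ∈ I, ∃ a, Val v χ a ∧ a ≠ 1)
    (hpar : T.par x₀ v ≠ none) (hx : x ∈ ob (pms hT hI) J x₀) (hy : y ∈ ob (pms hT hI) J x₀)
    (h : cv x v = cv y v) : x = y := by
  have hv' : ∀ χ ∈ I, ∃ a, Val v χ a := fun χ hχ => (hv χ hχ).imp fun a ha => ha.1
  have hop : ∀ e, IsOpen ((lam I e).ker : Set (GK K)) := lam_open fun χ hχ => (hI χ hχ).1
  have hx1 : T.deg x = 1 := by rw [ob_deg hT hI hx, hx₀]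
  have hxp : T.par x v ≠ none := ob_par hT hI hx hv' hpar
  have hyx : ∃ e : (GK K →* 𝕜ˣ) → ℤ, y = T.tw (lam I e) x := by
    obtain ⟨γ, hγ, rfl⟩ := hx
    obtain ⟨δ, hδ, rfl⟩ := hy
    obtain ⟨e, he⟩ := gp_lam hT hI ((gp (pms hT hI) J).mul_mem hδ ((gp (pms hT hI) J).inv_mem hγ))
    refine ⟨e, ?_⟩
    rw [← he, Equiv.Perm.mul_apply, ← Equiv.Perm.mul_apply γ⁻¹, inv_mul_cancel,
      Equiv.Perm.one_apply]
  obtain ⟨e, rfl⟩ := hyx
  rw [cv_tw hT (hop e) (lam_val hv' e) hx1 hxp] at h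
  have h1 : (∏ χ ∈ I, vl χ v ^ e χ) = 1 := by
    apply Units.ext
    rw [Units.val_one]
    have h0 := (cv_spec hT hx1 hxp).2
    exact mul_right_cancel₀ h0 (h.symm.trans (one_mul _).symm)
  rw [lam_eq_one hI hinj hv h1, tw_one hT]

end fam

end AutRep

end Pool.Agent.Q227.AK
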